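import Pool.Agent.Q173.FanDefs

/-!
# Smooth fans in the plane from upper semicontinuous height functions
-/

set_option linter.unusedSectionVars false

namespace Q173Fan

open Set Topology Filter

/-- Data of a smooth fan: a space `Z` of directions, injected in `ℝ` by `x` (the slopes),
and an upper semicontinuous height function `h : Z → [0,1]`. -/
structure FanData (Z : Type*) [TopologicalSpace Z] where
  x : Z → ℝ
  h : Z → ℝ
  x_cont : Continuous x
  x_inj : Function.Injective x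
  h_nonneg : ∀ z, 0 ≤ h z
  h_le : ∀ z, h z ≤ 1
  usc : UpperSemicontinuous h

namespace FanData

variable {Z : Type*} [TopologicalSpace Z] (D : FanData Z)

/-- The map `(z,y) ↦ (y * x z, y)`. -/
def q (p : Z × ℝ) : ℝ × ℝ := (p.2 * D.x p.1, p.2)

/-- The part under the graph of `h`. -/
def S : Set (Z × ℝ) := {p | 0 ≤ p.2 ∧ p.2 ≤ D.h p.1}

/-- The fan in the plane: the union of the segments from `0` to `(h z * x z, h z)`. -/
def F : Set (ℝ × ℝ) := D.q '' D.S

theorem q_cont : Continuous D.q := by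
  unfold q
  exact (continuous_snd.mul (D.x_cont.comp continuous_fst)).prodMk continuous_snd

theorem isClosed_S : IsClosed D.S := by
  have h1 : IsClosed {p : Z × ℝ | p.2 ≤ D.h p.1} :=
    upperSemicontinuous_iff_IsClosed_hypograph.1 D.usc
  have h2 : IsClosed {p : Z × ℝ | 0 ≤ p.2} := isClosed_le continuous_const continuous_snd
  exact h2.inter h1

theorem isCompact_S [CompactSpace Z] : IsCompact D.S := by
  refine IsCompact.of_isClosed_subset (isCompact_univ.prod (isCompact_Icc (a := (0:ℝ)) (b := 1)))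
    D.isClosed_S ?_
  rintro ⟨z, y⟩ ⟨h0, h1⟩
  exact ⟨trivial, h0, h1.trans (D.h_le z)⟩

theorem isCompact_F [CompactSpace Z] : IsCompact D.F := D.isCompact_S.image D.q_cont

instance [CompactSpace Z] : CompactSpace D.F := isCompact_iff_compactSpace.1 D.isCompact_F

theorem isClosed_F [CompactSpace Z] : IsClosed D.F := D.isCompact_F.isClosed

/-- Clamp the height `y` to the interval `[0, h z]`. -/
noncomputable def clamp (z : Z) (y : ℝ) : ℝ := max 0 (min y (D.h z))

theorem clamp_mem (z : Z) (y : ℝ) : (z, D.clamp z y) ∈ D.S :=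
  ⟨le_max_left _ _, max_le (D.h_nonneg z) (min_le_right _ _)⟩

theorem clamp_eq {z : Z} {y : ℝ} (h0 : 0 ≤ y) (h1 : y ≤ D.h z) : D.clamp z y = y := by
  unfold clamp
  rw [min_eq_left h1, max_eq_right h0]

/-- The point at height `y` on the blade of `z` (with `y` clamped to `[0, h z]`). -/
noncomputable def pt (z : Z) (y : ℝ) : D.F := ⟨D.q (z, D.clamp z y), _, D.clamp_mem z y, rfl⟩

/-- The height of a point of the fan. -/
def ht (p : D.F) : ℝ := p.1.2

theorem ht_cont : Continuous D.ht := continuous_snd.comp continuous_subtype_val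

@[simp] theorem ht_pt {z : Z} {y : ℝ} (h0 : 0 ≤ y) (h1 : y ≤ D.h z) : D.ht (D.pt z y) = y :=
  D.clamp_eq h0 h1

theorem pt_val {z : Z} {y : ℝ} (h0 : 0 ≤ y) (h1 : y ≤ D.h z) :
    (D.pt z y : ℝ × ℝ) = (y * D.x z, y) := by
  show D.q (z, D.clamp z y) = _
  rw [D.clamp_eq h0 h1]; rfl

theorem exists_pt (p : D.F) : ∃ z y, 0 ≤ y ∧ y ≤ D.h z ∧ p = D.pt z y := by
  obtain ⟨_, ⟨z, y⟩, ⟨h0, h1⟩, rfl⟩ := p
  refine ⟨z, y, h0, h1, ?_⟩
  apply Subtype.ext
  rw [D.pt_val h0 h1]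
  rfl

theorem pt_cont (z : Z) : Continuous (D.pt z) := by
  refine Continuous.subtype_mk ?_ _
  refine D.q_cont.comp (continuous_const.prodMk ?_)
  exact continuous_const.max (continuous_id.min continuous_const)

theorem pt_eq_pt {z z' : Z} {y y' : ℝ} (h0 : 0 ≤ y) (h1 : y ≤ D.h z) (h0' : 0 ≤ y')
    (h1' : y' ≤ D.h z') (h : D.pt z y = D.pt z' y') : y = y' ∧ (y = 0 ∨ z = z') := by
  have h2 := congrArg Subtype.val h
  rw [D.pt_val h0 h1, D.pt_val h0' h1'] at h2
  have h3 : y = y' := (Prod.ext_iff.1 h2).2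
  refine ⟨h3, ?_⟩
  by_cases hy : y = 0
  · exact Or.inl hy
  · right
    have h4 : y * D.x z = y' * D.x z' := (Prod.ext_iff.1 h2).1
    rw [← h3] at h4
    exact D.x_inj (mul_left_cancel₀ hy h4)

theorem pt_zero (z z' : Z) : D.pt z 0 = D.pt z' 0 := by
  apply Subtype.ext
  rw [D.pt_val le_rfl (D.h_nonneg z), D.pt_val le_rfl (D.h_nonneg z')]
  simp

variable [Nonempty Z]

/-- The top of the fan. -/
noncomputable def o : D.F := D.pt (Classical.arbitrary Z) 0

theorem pt_zero_eq (z : Z) : D.pt z 0 = D.o := D.pt_zero _ _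

theorem o_val : (D.o : ℝ × ℝ) = (0, 0) := by
  unfold o
  rw [D.pt_val le_rfl (D.h_nonneg _)]
  simp

@[simp] theorem ht_o : D.ht D.o = 0 := by
  unfold ht
  rw [D.o_val]

theorem eq_o_iff {p : D.F} : p = D.o ↔ D.ht p = 0 := by
  constructor
  · rintro rfl; simp
  · intro h
    obtain ⟨z, y, h0, h1, rfl⟩ := D.exists_pt p
    rw [D.ht_pt h0 h1] at h
    subst h
    exact D.pt_zero_eq z

theorem pt_eq_o_iff {z : Z} {y : ℝ} (h0 : 0 ≤ y) (h1 : y ≤ D.h z) :
    D.pt z y = D.o ↔ y = 0 := by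
  rw [D.eq_o_iff, D.ht_pt h0 h1]

/-- Images of closed sets are closed. -/
theorem isClosed_image [CompactSpace Z] {K : Set (Z × ℝ)} (hK : IsClosed K) :
    IsClosed {p : D.F | ∃ z y, (z, y) ∈ K ∧ 0 ≤ y ∧ y ≤ D.h z ∧ p = D.pt z y} := by
  have h1 : IsCompact (D.S ∩ K) := D.isCompact_S.inter_right hK
  have h2 : IsClosed (D.q '' (D.S ∩ K)) := (h1.image D.q_cont).isClosed
  have h3 : {p : D.F | ∃ z y, (z, y) ∈ K ∧ 0 ≤ y ∧ y ≤ D.h z ∧ p = D.pt z y} =
      Subtype.val ⁻¹' (D.q '' (D.S ∩ K)) := by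
    ext p
    constructor
    · rintro ⟨z, y, hK, h0, h1, rfl⟩
      exact ⟨(z, y), ⟨⟨h0, h1⟩, hK⟩, (D.pt_val h0 h1).symm⟩
    · rintro ⟨⟨z, y⟩, ⟨⟨h0, h1⟩, hK⟩, he⟩
      refine ⟨z, y, hK, h0, h1, ?_⟩
      apply Subtype.ext
      rw [D.pt_val h0 h1, ← he]
      rfl
  rw [h3]
  exact h2.preimage continuous_subtype_val

/-- Preimages of closed sets are closed. -/
theorem isClosed_preimage [CompactSpace Z] {A : Set D.F} (hA : IsClosed A) :
    IsClosed {p : Z × ℝ | 0 ≤ p.2 ∧ p.2 ≤ D.h p.1 ∧ D.pt p.1 p.2 ∈ A} := by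
  have h1 : IsClosed (Subtype.val '' A : Set (ℝ × ℝ)) :=
    D.isClosed_F.isClosedEmbedding_subtypeVal.isClosedMap _ hA
  have h3 : {p : Z × ℝ | 0 ≤ p.2 ∧ p.2 ≤ D.h p.1 ∧ D.pt p.1 p.2 ∈ A} =
      D.S ∩ D.q ⁻¹' (Subtype.val '' A : Set (ℝ × ℝ)) := by
    ext ⟨z, y⟩
    constructor
    · rintro ⟨h0, h1, h2⟩
      exact ⟨⟨h0, h1⟩, _, h2, D.pt_val h0 h1⟩
    · rintro ⟨⟨h0, h1⟩, p, hp, he⟩
      refine ⟨h0, h1, ?_⟩
      have : D.pt z y = p := by
        apply Subtype.ext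
        rw [D.pt_val h0 h1, he]
        rfl
      show D.pt z y ∈ A
      rw [this]; exact hp
  rw [h3]
  exact D.isClosed_S.inter (h1.preimage D.q_cont)

/-- A connected set which misses the top lies in one blade. -/
theorem same_blade [CompactSpace Z] [TotallySeparatedSpace Z] {A : Set D.F}
    (hA : IsPreconnected A) (ho : D.o ∉ A) {z z' : Z} {y y' : ℝ} (h0 : 0 ≤ y) (h1 : y ≤ D.h z)
    (h0' : 0 ≤ y') (h1' : y' ≤ D.h z') (hz : D.pt z y ∈ A) (hz' : D.pt z' y' ∈ A) : z = z' := by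
  by_contra hne
  obtain ⟨C, hC, hzC, hzC'⟩ := exists_isClopen_of_totally_separated hne
  have hK1 := D.isClosed_image (K := {p | p.1 ∈ C}) (hC.isClosed.preimage continuous_fst)
  have hK2 := D.isClosed_image (K := {p | p.1 ∈ Cᶜ}) (hC.compl.isClosed.preimage continuous_fst)
  obtain ⟨p, hpA, ⟨w, t, hw, ht0, ht1, rfl⟩, ⟨w', t', hw', ht0', ht1', he⟩⟩ :=
    isPreconnected_closed_iff.1 hA _ _ hK1 hK2 (by
      intro p hp
      obtain ⟨w, t, ht0, ht1, rfl⟩ := D.exists_pt p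
      by_cases hw : w ∈ C
      · exact Or.inl ⟨w, t, hw, ht0, ht1, rfl⟩
      · exact Or.inr ⟨w, t, hw, ht0, ht1, rfl⟩)
      ⟨_, hz, z, y, hzC, h0, h1, rfl⟩ ⟨_, hz', z', y', hzC', h0', h1', rfl⟩
  obtain ⟨-, h | h⟩ := D.pt_eq_pt ht0 ht1 ht0' ht1' he
  · apply ho
    rw [h, D.pt_zero_eq] at hpA
    exact hpA
  · subst h
    exact hw' hw

/-- A closed connected set containing the top is star shaped. -/
theorem star [CompactSpace Z] [T2Space Z] [TotallyDisconnectedSpace Z] {A : Set D.F}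
    (hA : IsPreconnected A) (hcl : IsClosed A) (ho : D.o ∈ A) {z : Z} {y y' : ℝ}
    (h1 : y ≤ D.h z) (h0' : 0 ≤ y') (h1' : y' ≤ y) (hz : D.pt z y ∈ A) : D.pt z y' ∈ A := by
  by_contra hne
  have hy' : 0 < y' := by
    rcases h0'.lt_or_eq with h | h
    · exact h
    · exfalso; apply hne; rw [← h, D.pt_zero_eq]; exact ho
  set W : Set Z := {w | y' ≤ D.h w ∧ D.pt w y' ∈ A} with hW
  have hWc : IsClosed W := by
    have := (D.isClosed_preimage hcl).preimage (f := fun w : Z => (w, y'))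
      (continuous_id.prodMk continuous_const)
    convert this using 1
    ext w
    simp [hW, h0']
  have hzW : z ∈ Wᶜ := fun h => hne h.2
  obtain ⟨C, hC, hzC, hCW⟩ := compact_exists_isClopen_in_isOpen hWc.isOpen_compl hzW
  have hK1 := D.isClosed_image (K := {p | p.1 ∈ C ∧ y' ≤ p.2})
    ((hC.isClosed.preimage continuous_fst).inter (isClosed_le continuous_const continuous_snd))
  have hK2 := D.isClosed_image (K := {p | p.1 ∈ Cᶜ ∨ p.2 ≤ y'})
    ((hC.compl.isClosed.preimage continuous_fst).union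
      (isClosed_le continuous_snd continuous_const))
  obtain ⟨p, hpA, ⟨w, t, hw, ht0, ht1, rfl⟩, ⟨w', t', hw', ht0', ht1', he⟩⟩ :=
    isPreconnected_closed_iff.1 hA _ _ hK1 hK2 (by
      intro p hp
      obtain ⟨w, t, ht0, ht1, rfl⟩ := D.exists_pt p
      by_cases hw : w ∈ C ∧ y' ≤ t
      · exact Or.inl ⟨w, t, hw, ht0, ht1, rfl⟩
      · refine Or.inr ⟨w, t, ?_, ht0, ht1, rfl⟩
        by_cases hw2 : w ∈ C
        · right
          by_contra h3
          exact hw ⟨hw2, (not_le.1 h3).le⟩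
        · exact Or.inl hw2)
      ⟨_, hz, z, y, ⟨hzC, h1'⟩, h0'.trans h1', h1, rfl⟩
      ⟨_, ho, z, 0, Or.inr h0', le_rfl, D.h_nonneg z, (D.pt_zero_eq z).symm⟩
  obtain ⟨h2, h | h⟩ := D.pt_eq_pt ht0 ht1 ht0' ht1' he
  · have := hw.2
    simp only at this
    linarith
  · subst h
    rcases hw' with h | h
    · exact h hw.1
    · have h3 : t = y' := by
        simp only at h
        have := hw.2
        simp only at this
        linarith
      subst h3
      exact hCW hw.1 ⟨ht1, hpA⟩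

end FanData

end Q173Fan
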