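import Mathlib

/-!
# Basic notions of continuum theory used for fans
-/

namespace Q173Fan

open Set Topology Filter

/-- `A` is an arc with end points `a` and `b`: the image of a topological embedding of `[0,1]`
sending `0` to `a` and `1` to `b`. -/
def IsArcBetween {X : Type*} [TopologicalSpace X] (A : Set X) (a b : X) : Prop :=
  ∃ γ : unitInterval → X, IsEmbedding γ ∧ range γ = A ∧ γ 0 = a ∧ γ 1 = b

/-- `A` is an arc, i.e. homeomorphic to `[0,1]`. -/
def IsArc {X : Type*} [TopologicalSpace X] (A : Set X) : Prop :=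
  ∃ a b : X, IsArcBetween A a b

/-- `A` is the arc from `a` to `b`, or `A = {a}` in case `a = b`. -/
def IsArcOrPoint {X : Type*} [TopologicalSpace X] (A : Set X) (a b : X) : Prop :=
  IsArcBetween A a b ∨ (a = b ∧ A = {a})

/-- A (nonempty) compact connected subset. -/
def IsSubcontinuum {X : Type*} [TopologicalSpace X] (A : Set X) : Prop :=
  IsCompact A ∧ IsConnected A

/-- `X` is a continuum: nonempty, compact and connected (used for metric spaces). -/
def IsContinuumSpace (X : Type*) [TopologicalSpace X] : Prop :=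
  CompactSpace X ∧ ConnectedSpace X

/-- Any two distinct points are the end points of some arc. -/
def ArcwiseConnected (X : Type*) [TopologicalSpace X] : Prop :=
  ∀ a b : X, a ≠ b → ∃ A : Set X, IsArcBetween A a b

/-- Any two subcontinua have connected (possibly empty) intersection. -/
def HereditarilyUnicoherent (X : Type*) [TopologicalSpace X] : Prop :=
  ∀ A B : Set X, IsSubcontinuum A → IsSubcontinuum B → IsPreconnected (A ∩ B)

/-- A dendroid: an arcwise connected, hereditarily unicoherent continuum. -/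
def IsDendroid (X : Type*) [TopologicalSpace X] : Prop :=
  IsContinuumSpace X ∧ ArcwiseConnected X ∧ HereditarilyUnicoherent X

/-- `p` is a ramification point: a common end point of three arcs that pairwise meet only in `p`
(equivalently, the vertex of a simple triod). -/
def IsRamificationPoint {X : Type*} [TopologicalSpace X] (p : X) : Prop :=
  ∃ (A B C : Set X) (a b c : X), IsArcBetween A p a ∧ IsArcBetween B p b ∧ IsArcBetween C p c ∧
    A ∩ B = {p} ∧ A ∩ C = {p} ∧ B ∩ C = {p}

/-- A fan with top `t`: a dendroid in which `t` is the unique ramification point. -/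
def IsFanWithTop (X : Type*) [TopologicalSpace X] (t : X) : Prop :=
  IsDendroid X ∧ ∀ p : X, IsRamificationPoint p ↔ p = t

/-- `e` is an end point: an end point of every arc containing it. -/
def IsEndPoint {X : Type*} [TopologicalSpace X] (e : X) : Prop :=
  ∀ A : Set X, IsArc A → e ∈ A → ∃ b : X, IsArcBetween A e b

/-- A smooth fan with top `t`: `x n → y` implies that the arcs `[t, x n]` converge to `[t, y]` in
the Hausdorff metric (where `[t,t] = {t}`). -/
def IsSmoothFan (X : Type*) [MetricSpace X] (t : X) : Prop :=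
  IsFanWithTop X t ∧ ∀ (x : ℕ → X) (y : X) (A : ℕ → Set X) (B : Set X),
    Tendsto x atTop (𝓝 y) → (∀ n, IsArcOrPoint (A n) t (x n)) → IsArcOrPoint B t y →
      Tendsto (fun n => Metric.hausdorffDist (A n) B) atTop (𝓝 0)

/-- `X` is `P`-EPG (with top `t`): for every blade `B = [t,e]` there is a homeomorphism
`φ : [0,1] → B` with `φ 0 = t`, `φ 1 = e` and `φ '' P = B ∩ closure (E \ B)`, where `E` is the set
of end points. -/
def IsEPG (X : Type*) [TopologicalSpace X] (t : X) (P : Set unitInterval) : Prop :=
  ∀ (e : X) (B : Set X), IsEndPoint e → IsArcBetween B t e →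
    ∃ φ : unitInterval → X, IsEmbedding φ ∧ range φ = B ∧ φ 0 = t ∧ φ 1 = e ∧
      φ '' P = B ∩ closure ({x | IsEndPoint x} \ B)

/-- Any two end points are exchanged by some self-homeomorphism. -/
def EndPointHomogeneous (X : Type*) [TopologicalSpace X] : Prop :=
  ∀ e e' : X, IsEndPoint e → IsEndPoint e' → ∃ f : X ≃ₜ X, f e = e'

/-- Two points are in the same orbit of the group of self-homeomorphisms. -/
def homeoSetoid (X : Type*) [TopologicalSpace X] : Setoid X where
  r x y := ∃ f : X ≃ₜ X, f x = y
  iseqv := by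
    refine ⟨fun x => ⟨Homeomorph.refl X, rfl⟩, ?_, ?_⟩
    · rintro x y ⟨f, rfl⟩
      exact ⟨f.symm, by simp⟩
    · rintro x y z ⟨f, rfl⟩ ⟨g, rfl⟩
      exact ⟨f.trans g, rfl⟩

section transfer

variable {X Y : Type*} [TopologicalSpace X] [TopologicalSpace Y]

theorem IsArcBetween.image {A : Set X} {a b : X} (h : IsArcBetween A a b) (f : X ≃ₜ Y) :
    IsArcBetween (f '' A) (f a) (f b) := by
  obtain ⟨γ, hγ, rfl, rfl, rfl⟩ := h
  exact ⟨f ∘ γ, f.isEmbedding.comp hγ, range_comp f γ, rfl, rfl⟩

theorem IsArcBetween.image_iff {A : Set X} {a b : X} (f : X ≃ₜ Y) :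
    IsArcBetween (f '' A) (f a) (f b) ↔ IsArcBetween A a b := by
  refine ⟨fun h => ?_, fun h => h.image f⟩
  have := h.image f.symm
  simpa [← image_comp] using this

theorem IsArc.image {A : Set X} (h : IsArc A) (f : X ≃ₜ Y) : IsArc (f '' A) := by
  obtain ⟨a, b, h⟩ := h
  exact ⟨_, _, h.image f⟩

theorem IsEndPoint.image {e : X} (h : IsEndPoint e) (f : X ≃ₜ Y) : IsEndPoint (f e) := by
  intro A hA he
  have h1 : e ∈ f.symm '' A := ⟨f e, he, by simp⟩
  obtain ⟨b, hb⟩ := h _ (hA.image f.symm) h1
  refine ⟨f b, ?_⟩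
  have := hb.image f
  simpa [← image_comp] using this

theorem isEndPoint_image_iff {e : X} (f : X ≃ₜ Y) : IsEndPoint (f e) ↔ IsEndPoint e := by
  refine ⟨fun h => ?_, fun h => h.image f⟩
  simpa using h.image f.symm

theorem image_setOf_isEndPoint (f : X ≃ₜ Y) : f '' {x | IsEndPoint x} = {x | IsEndPoint x} := by
  ext y
  constructor
  · rintro ⟨x, hx, rfl⟩
    exact IsEndPoint.image hx f
  · intro hy
    exact ⟨f.symm y, IsEndPoint.image hy f.symm, by simp⟩

theorem IsRamificationPoint.image {p : X} (h : IsRamificationPoint p) (f : X ≃ₜ Y) :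
    IsRamificationPoint (f p) := by
  obtain ⟨A, B, C, a, b, c, hA, hB, hC, h1, h2, h3⟩ := h
  refine ⟨f '' A, f '' B, f '' C, f a, f b, f c, hA.image f, hB.image f, hC.image f, ?_, ?_, ?_⟩
  · rw [← image_inter f.injective, h1, image_singleton]
  · rw [← image_inter f.injective, h2, image_singleton]
  · rw [← image_inter f.injective, h3, image_singleton]

theorem IsFanWithTop.image_top {t : X} {t' : Y} (h : IsFanWithTop X t) (h' : IsFanWithTop Y t')
    (f : X ≃ₜ Y) : f t = t' :=
  (h'.2 _).1 (((h.2 t).2 rfl).image f)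

end transfer

section arcs

variable {X : Type*} [TopologicalSpace X]

theorem IsArcBetween.ne {A : Set X} {a b : X} (h : IsArcBetween A a b) : a ≠ b := by
  obtain ⟨γ, hγ, -, rfl, rfl⟩ := h
  intro h
  exact zero_ne_one (hγ.injective h)

theorem IsArcBetween.left_mem {A : Set X} {a b : X} (h : IsArcBetween A a b) : a ∈ A := by
  obtain ⟨γ, hγ, rfl, rfl, rfl⟩ := h
  exact mem_range_self _

theorem IsArcBetween.right_mem {A : Set X} {a b : X} (h : IsArcBetween A a b) : b ∈ A := by
  obtain ⟨γ, hγ, rfl, rfl, rfl⟩ := h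
  exact mem_range_self _

theorem IsArcBetween.isCompact {A : Set X} {a b : X} (h : IsArcBetween A a b) : IsCompact A := by
  obtain ⟨γ, hγ, rfl, rfl, rfl⟩ := h
  exact isCompact_range hγ.continuous

theorem IsArcBetween.isConnected {A : Set X} {a b : X} (h : IsArcBetween A a b) :
    IsConnected A := by
  obtain ⟨γ, hγ, rfl, rfl, rfl⟩ := h
  exact isConnected_range hγ.continuous

theorem IsArcBetween.symm {A : Set X} {a b : X} (h : IsArcBetween A a b) :
    IsArcBetween A b a := by
  obtain ⟨γ, hγ, rfl, rfl, rfl⟩ := h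
  refine ⟨γ ∘ unitInterval.symm, ?_, ?_, by simp, by simp⟩
  · exact hγ.comp unitInterval.symmHomeomorph.isEmbedding
  · have h1 : range unitInterval.symm = univ := unitInterval.symmHomeomorph.surjective.range_eq
    rw [range_comp, h1, image_univ]

theorem isArcBetween_of_injective [T2Space X] {γ : unitInterval → X} (hc : Continuous γ)
    (hi : Function.Injective γ) : IsArcBetween (range γ) (γ 0) (γ 1) :=
  ⟨γ, (hc.isClosedEmbedding hi).isEmbedding, rfl, rfl, rfl⟩

/-- A connected subset of an arc containing both end points is the whole arc. -/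
theorem IsArcBetween.eq_of_subset {A C : Set X} {a b : X} (h : IsArcBetween A a b)
    (hC : IsPreconnected C) (hCA : C ⊆ A) (ha : a ∈ C) (hb : b ∈ C) : C = A := by
  obtain ⟨γ, hγ, rfl, rfl, rfl⟩ := h
  refine hCA.antisymm ?_
  have h1 : IsPreconnected (γ ⁻¹' C) := by
    have : IsPreconnected (γ '' (γ ⁻¹' C)) := by
      rw [image_preimage_eq_of_subset hCA]
      exact hC
    exact (hγ.isInducing.isPreconnected_image).1 this
  have h2 : γ ⁻¹' C = univ := by
    rw [eq_univ_iff_forall]
    intro s
    exact h1.ordConnected.out ha hb ⟨unitInterval.nonneg s, unitInterval.le_one s⟩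
  rintro _ ⟨s, rfl⟩
  have : s ∈ γ ⁻¹' C := by rw [h2]; trivial
  exact this

end arcs

end Q173Fan
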