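import Pool.Agent.Q173.FanTheory

/-!
# End points and ramification points of the fans `D.F`
-/

set_option linter.unusedSectionVars false

namespace Q173Fan

open Set Topology Filter

namespace FanData

variable {Z : Type*} [TopologicalSpace Z] (D : FanData Z) [Nonempty Z]
variable [CompactSpace Z] [T2Space Z] [TotallyDisconnectedSpace Z]

/-- Extend a path to the real line. -/
noncomputable def ext (γ : unitInterval → D.F) (t : ℝ) : D.F := γ (projIcc 0 1 zero_le_one t)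

theorem ext_cont {γ : unitInterval → D.F} (hc : Continuous γ) : Continuous (D.ext γ) :=
  hc.comp continuous_projIcc

theorem ext_inj {γ : unitInterval → D.F} (hi : Function.Injective γ) {s t : ℝ}
    (hs : s ∈ Icc (0:ℝ) 1) (ht : t ∈ Icc (0:ℝ) 1) (h : D.ext γ s = D.ext γ t) : s = t := by
  have := hi h
  rw [projIcc_of_mem _ hs, projIcc_of_mem _ ht] at this
  exact congrArg Subtype.val this

theorem ext_apply (γ : unitInterval → D.F) (s : unitInterval) : D.ext γ s = γ s := by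
  unfold ext
  rw [projIcc_val]

theorem ext_mem_range (γ : unitInterval → D.F) (t : ℝ) : D.ext γ t ∈ range γ := ⟨_, rfl⟩

/-- On an interval on which a path avoids the top, it stays in one blade. -/
theorem path_blade {g : ℝ → D.F} (hg : Continuous g) {a b s : ℝ} {z : Z} (has : a ≤ s)
    (hsb : s ≤ b) (ho : ∀ t ∈ Icc a b, g t ≠ D.o) (hz : ∃ y, 0 ≤ y ∧ y ≤ D.h z ∧ g s = D.pt z y)
    {t : ℝ} (ht : t ∈ Icc a b) :
    0 ≤ D.ht (g t) ∧ D.ht (g t) ≤ D.h z ∧ g t = D.pt z (D.ht (g t)) := by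
  obtain ⟨y, h0, h1, he⟩ := hz
  have hA : IsPreconnected (g '' Icc a b) := isPreconnected_Icc.image _ hg.continuousOn
  have hoA : D.o ∉ g '' Icc a b := by
    rintro ⟨r, hr, hro⟩
    exact ho r hr hro
  obtain ⟨w, t', ht0, ht1, hw⟩ := D.exists_pt (g t)
  have := D.same_blade hA hoA h0 h1 ht0 ht1 (by rw [← he]; exact ⟨s, ⟨has, hsb⟩, rfl⟩)
    (by rw [← hw]; exact ⟨t, ht, rfl⟩)
  subst this
  rw [hw, D.ht_pt ht0 ht1]
  exact ⟨ht0, ht1, rfl⟩

theorem exists_avoid {g : ℝ → D.F} (hg : Continuous g) {s : ℝ} (hs : g s ≠ D.o) :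
    ∃ ε > 0, ∀ t, |t - s| < ε → g t ≠ D.o := by
  have h1 : {t | g t ≠ D.o} ∈ 𝓝 s := (isOpen_ne_fun hg continuous_const).mem_nhds hs
  obtain ⟨ε, hε, h2⟩ := Metric.mem_nhds_iff.1 h1
  exact ⟨ε, hε, fun t ht => h2 (by rwa [Metric.mem_ball, Real.dist_eq])⟩

theorem isEndPoint_tip {z : Z} (hz : 0 < D.h z) : IsEndPoint (D.pt z (D.h z)) := by
  rintro A ⟨a, b, hA⟩ hzA
  have hA' := hA
  obtain ⟨γ, hγ, rfl, rfl, rfl⟩ := hA
  obtain ⟨s0, hs0⟩ := hzA
  by_cases h0 : s0 = 0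
  · subst h0
    rw [← hs0]
    exact ⟨_, hA'⟩
  by_cases h1 : s0 = 1
  · subst h1
    rw [← hs0]
    exact ⟨_, hA'.symm⟩
  exfalso
  have hpos : (0:ℝ) < s0 := lt_of_le_of_ne s0.2.1 (fun h => h0 (Subtype.ext h.symm))
  have hlt : (s0:ℝ) < 1 := lt_of_le_of_ne s0.2.2 (fun h => h1 (Subtype.ext h))
  set g := D.ext γ with hg
  have hgc : Continuous g := D.ext_cont hγ.continuous
  have hgs : g s0 = D.pt z (D.h z) := by rw [hg, D.ext_apply, hs0]
  have hgo : g s0 ≠ D.o := by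
    rw [hgs, Ne, D.pt_eq_o_iff hz.le le_rfl]
    exact hz.ne'
  obtain ⟨ε, hε, hav⟩ := D.exists_avoid hgc hgo
  set a := max 0 ((s0:ℝ) - ε / 2) with ha
  set b := min 1 ((s0:ℝ) + ε / 2) with hb
  have ha0 : 0 ≤ a := le_max_left _ _
  have hb1 : b ≤ 1 := min_le_left _ _
  have has : a < s0 := max_lt hpos (by linarith)
  have hsb : (s0:ℝ) < b := lt_min hlt (by linarith)
  have hav' : ∀ t ∈ Icc a b, g t ≠ D.o := by
    intro t ht
    apply hav
    have h2 : (s0:ℝ) - ε / 2 ≤ a := le_max_right _ _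
    have h3 : b ≤ (s0:ℝ) + ε / 2 := min_le_right _ _
    rw [abs_lt]
    constructor <;> linarith [ht.1, ht.2]
  have hbl : ∀ t ∈ Icc a b, 0 ≤ D.ht (g t) ∧ D.ht (g t) ≤ D.h z ∧ g t = D.pt z (D.ht (g t)) :=
    fun t ht => D.path_blade hgc has.le hsb.le hav' ⟨_, hz.le, le_rfl, hgs⟩ ht
  have hI : ∀ t ∈ Icc a b, t ∈ Icc (0:ℝ) 1 := fun t ht => ⟨ha0.trans ht.1, ht.2.trans hb1⟩
  have hs0I : (s0:ℝ) ∈ Icc a b := ⟨has.le, hsb.le⟩
  have hlt' : ∀ t ∈ Icc a b, t ≠ s0 → D.ht (g t) < D.h z := by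
    intro t ht hne
    refine lt_of_le_of_ne (hbl t ht).2.1 ?_
    intro h
    apply hne
    apply D.ext_inj hγ.injective (hI t ht) (hI _ hs0I)
    show g t = g s0
    rw [(hbl t ht).2.2, h, hgs]
  have haI : a ∈ Icc a b := ⟨le_rfl, (has.trans hsb).le⟩
  have hbI : b ∈ Icc a b := ⟨(has.trans hsb).le, le_rfl⟩
  have hya := hlt' a haI has.ne
  have hyb := hlt' b hbI hsb.ne'
  obtain ⟨v, hv1, hv2⟩ := exists_between (max_lt hya hyb)
  have hcont : Continuous fun t => D.ht (g t) := D.ht_cont.comp hgc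
  have hsv : D.ht (g s0) = D.h z := by rw [hgs, D.ht_pt hz.le le_rfl]
  obtain ⟨t1, ht1, ht1v⟩ := intermediate_value_Icc has.le hcont.continuousOn
    (show v ∈ Icc (D.ht (g a)) (D.ht (g s0)) from
      ⟨((le_max_left _ _).trans_lt hv1).le, by rw [hsv]; exact hv2.le⟩)
  obtain ⟨t2, ht2, ht2v⟩ := intermediate_value_Icc' hsb.le hcont.continuousOn
    (show v ∈ Icc (D.ht (g b)) (D.ht (g s0)) from
      ⟨((le_max_right _ _).trans_lt hv1).le, by rw [hsv]; exact hv2.le⟩)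
  simp only at ht1v ht2v
  have ht1I : t1 ∈ Icc a b := ⟨ht1.1, ht1.2.trans hsb.le⟩
  have ht2I : t2 ∈ Icc a b := ⟨has.le.trans ht2.1, ht2.2⟩
  have hg1 : g t1 = g t2 := by
    rw [(hbl t1 ht1I).2.2, (hbl t2 ht2I).2.2, ht1v, ht2v]
  have h12 : t1 = t2 := D.ext_inj hγ.injective (hI _ ht1I) (hI _ ht2I) hg1
  have h3 : t1 = s0 := le_antisymm ht1.2 (by rw [h12]; exact ht2.1)
  rw [h3, hsv] at ht1v
  exact hv2.ne ht1v.symm

/-- Points in the interior of a blade are not end points. -/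
theorem not_isEndPoint_mid {z : Z} {y : ℝ} (h0 : 0 < y) (h1 : y < D.h z) :
    ¬ IsEndPoint (D.pt z y) := by
  intro hE
  have hz : D.pt z (D.h z) ≠ D.o := by
    rw [Ne, D.pt_eq_o_iff (D.h_nonneg z) le_rfl]
    exact (h0.trans h1).ne'
  have hmem : D.pt z y ∈ D.seg (D.pt z (D.h z)) :=
    (D.mem_seg_pt (D.h_nonneg z) le_rfl).2 ⟨y, h0.le, h1.le, rfl⟩
  obtain ⟨b, hb⟩ := hE _ ⟨_, _, D.seg_arc hz⟩ hmem
  -- the arc minus its end point is connected
  obtain ⟨γ, hγ, hr, hγ0, -⟩ := hb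
  have hconn : IsPreconnected (γ '' Ioc 0 1) :=
    isPreconnected_Ioc.image _ hγ.continuous.continuousOn
  have h2 : IsPreconnected (D.ht '' (γ '' Ioc 0 1)) := hconn.image _ D.ht_cont.continuousOn
  have hin : ∀ p ∈ D.seg (D.pt z (D.h z)), p ≠ D.pt z y → p ∈ γ '' Ioc 0 1 := by
    intro p hp hne
    rw [← hr] at hp
    obtain ⟨s, rfl⟩ := hp
    refine ⟨s, ⟨?_, unitInterval.le_one s⟩, rfl⟩
    refine lt_of_le_of_ne (unitInterval.nonneg s) ?_
    rintro rfl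
    exact hne hγ0
  have ho : D.o ∈ γ '' Ioc 0 1 := by
    apply hin _ (D.o_mem_seg _)
    intro h
    have := (D.pt_eq_o_iff h0.le h1.le).1 h.symm
    exact h0.ne' this
  have ht : D.pt z (D.h z) ∈ γ '' Ioc 0 1 := by
    apply hin _ (D.mem_seg _)
    intro h
    exact h1.ne' (D.pt_eq_pt (D.h_nonneg z) le_rfl h0.le h1.le h).1
  have hy : y ∈ D.ht '' (γ '' Ioc 0 1) := by
    refine h2.ordConnected.out ⟨_, ho, D.ht_o⟩ ⟨_, ht, D.ht_pt (D.h_nonneg z) le_rfl⟩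
      ⟨h0.le, h1.le⟩
  obtain ⟨_, ⟨s, hs, rfl⟩, hsy⟩ := hy
  have hsr : γ s ∈ D.seg (D.pt z (D.h z)) := by rw [← hr]; exact mem_range_self _
  obtain ⟨t, ht0, ht1, he⟩ := (D.mem_seg_pt (D.h_nonneg z) le_rfl).1 hsr
  rw [he, D.ht_pt ht0 ht1] at hsy
  subst hsy
  rw [← hγ0] at he
  have := hγ.injective he
  rw [this] at hs
  exact lt_irrefl _ hs.1

/-- The top is not an end point when there are two blades. -/
theorem not_isEndPoint_o {z w : Z} (hz : 0 < D.h z) (hw : 0 < D.h w) (hzw : z ≠ w) :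
    ¬ IsEndPoint D.o := by
  intro hE
  obtain ⟨A, hA⟩ := D.arcwise (D.pt z (D.h z)) (D.pt w (D.h w)) (by
    intro h
    obtain ⟨h1, h2 | h2⟩ := D.pt_eq_pt hz.le le_rfl hw.le le_rfl h
    · exact hz.ne' h2
    · exact hzw h2)
  have hoA : D.o ∈ A := by
    by_contra ho
    exact hzw (D.same_blade hA.isConnected.2 ho hz.le le_rfl hw.le le_rfl hA.left_mem
      hA.right_mem)
  obtain ⟨b, γ, hγ, hr, hγ0, -⟩ := hE A ⟨_, _, hA⟩ hoA
  have hconn : IsPreconnected (γ '' Ioc 0 1) :=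
    isPreconnected_Ioc.image _ hγ.continuous.continuousOn
  have hin : ∀ p ∈ A, p ≠ D.o → p ∈ γ '' Ioc 0 1 := by
    intro p hp hne
    rw [← hr] at hp
    obtain ⟨s, rfl⟩ := hp
    refine ⟨s, ⟨?_, unitInterval.le_one s⟩, rfl⟩
    refine lt_of_le_of_ne (unitInterval.nonneg s) ?_
    rintro rfl
    exact hne hγ0
  have ho : D.o ∉ γ '' Ioc 0 1 := by
    rintro ⟨s, hs, hso⟩
    rw [← hγ0] at hso
    have := hγ.injective hso
    rw [this] at hs
    exact lt_irrefl _ hs.1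
  refine hzw (D.same_blade hconn ho hz.le le_rfl hw.le le_rfl ?_ ?_)
  · refine hin _ hA.left_mem ?_
    rw [Ne, D.pt_eq_o_iff hz.le le_rfl]; exact hz.ne'
  · refine hin _ hA.right_mem ?_
    rw [Ne, D.pt_eq_o_iff hw.le le_rfl]; exact hw.ne'

/-- The end points of the fan. -/
theorem isEndPoint_iff {z w : Z} (hz : 0 < D.h z) (hw : 0 < D.h w) (hzw : z ≠ w) (p : D.F) :
    IsEndPoint p ↔ ∃ z, 0 < D.h z ∧ p = D.pt z (D.h z) := by
  constructor
  · intro hE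
    obtain ⟨u, y, h0, h1, rfl⟩ := D.exists_pt p
    have hy : y ≠ 0 := by
      rintro rfl
      rw [D.pt_zero_eq] at hE
      exact D.not_isEndPoint_o hz hw hzw hE
    have hy' : 0 < y := lt_of_le_of_ne h0 (Ne.symm hy)
    have h2 : y = D.h u := by
      by_contra hne
      exact D.not_isEndPoint_mid hy' (lt_of_le_of_ne h1 hne) hE
    exact ⟨u, by rw [← h2]; exact hy', by rw [h2]⟩
  · rintro ⟨u, hu, rfl⟩
    exact D.isEndPoint_tip hu

/-- One direction of an arc issuing from a point different from the top. -/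
theorem arc_germ {A : Set D.F} {z : Z} {y : ℝ} {a : D.F} (h0 : 0 < y) (h1 : y ≤ D.h z)
    (hA : IsArcBetween A (D.pt z y) a) :
    (∃ v > y, v ≤ D.h z ∧ ∀ s ∈ Icc y v, D.pt z s ∈ A) ∨
      (∃ v, 0 ≤ v ∧ v < y ∧ ∀ s ∈ Icc v y, D.pt z s ∈ A) := by
  obtain ⟨γ, hγ, hr, hγ0, -⟩ := hA
  set g := D.ext γ with hg
  have hgc : Continuous g := D.ext_cont hγ.continuous
  have hg0 : g 0 = D.pt z y := by
    have := D.ext_apply γ 0
    rw [Set.Icc.coe_zero] at this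
    rw [hg, this, hγ0]
  have hgo : g 0 ≠ D.o := by
    rw [hg0, Ne, D.pt_eq_o_iff h0.le h1]
    exact h0.ne'
  obtain ⟨ε, hε, hav⟩ := D.exists_avoid hgc hgo
  set b := min 1 (ε / 2) with hb
  have hb0 : 0 < b := lt_min one_pos (by linarith)
  have hb1 : b ≤ 1 := min_le_left _ _
  have hav' : ∀ t ∈ Icc 0 b, g t ≠ D.o := by
    intro t ht
    apply hav
    have h3 : b ≤ ε / 2 := min_le_right _ _
    rw [abs_lt]
    constructor <;> linarith [ht.1, ht.2]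
  have hbl : ∀ t ∈ Icc 0 b, 0 ≤ D.ht (g t) ∧ D.ht (g t) ≤ D.h z ∧ g t = D.pt z (D.ht (g t)) :=
    fun t ht => D.path_blade hgc le_rfl hb0.le hav' ⟨_, h0.le, h1, hg0⟩ ht
  have hbI : b ∈ Icc 0 b := ⟨hb0.le, le_rfl⟩
  have hcont : Continuous fun t => D.ht (g t) := D.ht_cont.comp hgc
  have hh0 : D.ht (g 0) = y := by rw [hg0, D.ht_pt h0.le h1]
  have hmemA : ∀ t, g t ∈ A := fun t => by rw [← hr]; exact D.ext_mem_range γ t
  rcases lt_trichotomy (D.ht (g b)) y with h | h | h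
  · right
    refine ⟨D.ht (g b), (hbl b hbI).1, h, ?_⟩
    intro s hs
    obtain ⟨t, ht, hts⟩ := intermediate_value_Icc' hb0.le hcont.continuousOn
      (show s ∈ Icc (D.ht (g b)) (D.ht (g 0)) by rw [hh0]; exact hs)
    simp only at hts
    rw [← hts, ← (hbl t ht).2.2]
    exact hmemA t
  · exfalso
    have h2 : g b = g 0 := by
      rw [(hbl b hbI).2.2, h, hg0]
    have := D.ext_inj hγ.injective ⟨hb0.le, hb1⟩ ⟨le_rfl, zero_le_one⟩ h2
    exact hb0.ne' this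
  · left
    refine ⟨D.ht (g b), h, (hbl b hbI).2.1, ?_⟩
    intro s hs
    obtain ⟨t, ht, hts⟩ := intermediate_value_Icc hb0.le hcont.continuousOn
      (show s ∈ Icc (D.ht (g 0)) (D.ht (g b)) by rw [hh0]; exact hs)
    simp only at hts
    rw [← hts, ← (hbl t ht).2.2]
    exact hmemA t

theorem not_isRamificationPoint {z : Z} {y : ℝ} (h0 : 0 < y) (h1 : y ≤ D.h z) :
    ¬ IsRamificationPoint (D.pt z y) := by
  rintro ⟨A, B, C, a, b, c, hA, hB, hC, hAB, hAC, hBC⟩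
  have up : ∀ {A B : Set D.F}, A ∩ B = {D.pt z y} →
      (∃ v > y, v ≤ D.h z ∧ ∀ s ∈ Icc y v, D.pt z s ∈ A) →
      (∃ v > y, v ≤ D.h z ∧ ∀ s ∈ Icc y v, D.pt z s ∈ B) → False := by
    rintro A B hAB ⟨v, hv, hvh, hvA⟩ ⟨w, hw, hwh, hwB⟩
    have h2 : D.pt z (min v w) ∈ A ∩ B :=
      ⟨hvA _ ⟨(lt_min hv hw).le, min_le_left _ _⟩, hwB _ ⟨(lt_min hv hw).le, min_le_right _ _⟩⟩
    rw [hAB, mem_singleton_iff] at h2
    have h3 := (D.pt_eq_pt (h0.le.trans (lt_min hv hw).le) ((min_le_left _ _).trans hvh)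
      h0.le h1 h2).1
    exact (lt_min hv hw).ne' h3
  have down : ∀ {A B : Set D.F}, A ∩ B = {D.pt z y} →
      (∃ v, 0 ≤ v ∧ v < y ∧ ∀ s ∈ Icc v y, D.pt z s ∈ A) →
      (∃ v, 0 ≤ v ∧ v < y ∧ ∀ s ∈ Icc v y, D.pt z s ∈ B) → False := by
    rintro A B hAB ⟨v, hv0, hv, hvA⟩ ⟨w, hw0, hw, hwB⟩
    have h2 : D.pt z (max v w) ∈ A ∩ B :=
      ⟨hvA _ ⟨le_max_left _ _, (max_lt hv hw).le⟩, hwB _ ⟨le_max_right _ _, (max_lt hv hw).le⟩⟩
    rw [hAB, mem_singleton_iff] at h2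
    have h3 := (D.pt_eq_pt (hv0.trans (le_max_left _ _)) ((max_lt hv hw).le.trans h1)
      h0.le h1 h2).1
    exact (max_lt hv hw).ne h3
  rcases D.arc_germ h0 h1 hA with uA | dA <;> rcases D.arc_germ h0 h1 hB with uB | dB <;>
    rcases D.arc_germ h0 h1 hC with uC | dC
  · exact up hAB uA uB
  · exact up hAB uA uB
  · exact up hAC uA uC
  · exact down hBC dB dC
  · exact up hBC uB uC
  · exact down hAC dA dC
  · exact down hAB dA dB
  · exact down hAB dA dB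

theorem isRamificationPoint_o {z w u : Z} (hz : 0 < D.h z) (hw : 0 < D.h w) (hu : 0 < D.h u)
    (hzw : z ≠ w) (hzu : z ≠ u) (hwu : w ≠ u) : IsRamificationPoint D.o := by
  have hne : ∀ {z : Z}, 0 < D.h z → D.pt z (D.h z) ≠ D.o := by
    intro z hz
    rw [Ne, D.pt_eq_o_iff hz.le le_rfl]
    exact hz.ne'
  have hint : ∀ {z w : Z}, z ≠ w →
      D.seg (D.pt z (D.h z)) ∩ D.seg (D.pt w (D.h w)) = {D.o} := by
    intro z w hzw
    ext p
    constructor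
    · rintro ⟨h1, h2⟩
      obtain ⟨s, hs0, hs1, rfl⟩ := (D.mem_seg_pt (D.h_nonneg z) le_rfl).1 h1
      obtain ⟨t, ht0, ht1, he⟩ := (D.mem_seg_pt (D.h_nonneg w) le_rfl).1 h2
      obtain ⟨h3, h4 | h4⟩ := D.pt_eq_pt hs0 hs1 ht0 ht1 he
      · rw [h4, D.pt_zero_eq]; rfl
      · exact absurd h4 hzw
    · rintro rfl
      exact ⟨D.o_mem_seg _, D.o_mem_seg _⟩
  exact ⟨_, _, _, _, _, _, D.seg_arc (hne hz), D.seg_arc (hne hw), D.seg_arc (hne hu),
    hint hzw, hint hzu, hint hwu⟩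

theorem isSmoothFan {z w u : Z} (hz : 0 < D.h z) (hw : 0 < D.h w) (hu : 0 < D.h u)
    (hzw : z ≠ w) (hzu : z ≠ u) (hwu : w ≠ u) : IsSmoothFan D.F D.o := by
  refine ⟨⟨D.isDendroid, ?_⟩, D.smooth_conv⟩
  intro p
  constructor
  · intro hp
    by_contra hne
    obtain ⟨v, y, h0, h1, rfl⟩ := D.exists_pt p
    rw [D.pt_eq_o_iff h0 h1] at hne
    exact D.not_isRamificationPoint (lt_of_le_of_ne h0 (Ne.symm hne)) h1 hp
  · rintro rfl
    exact D.isRamificationPoint_o hz hw hu hzw hzu hwu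

end FanData

end Q173Fan
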