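import Pool.Agent.Q173.FanEnds

/-!
# Homeomorphisms between the fans `D.F`
-/

set_option linter.unusedSectionVars false

namespace Q173Fan

open Set Topology Filter

namespace FanData

variable {Z : Type*} [TopologicalSpace Z] (D : FanData Z) [Nonempty Z]
variable [CompactSpace Z] [T2Space Z] [TotallyDisconnectedSpace Z]
variable {Z' : Type*} [TopologicalSpace Z'] (D' : FanData Z') [Nonempty Z']
variable [CompactSpace Z'] [T2Space Z'] [TotallyDisconnectedSpace Z']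

/-- A homeomorphism of fans from a homeomorphism of the direction spaces and homeomorphisms of the
blades. -/
theorem exists_homeo (σ : Z ≃ₜ Z') (η : Z → ℝ → ℝ)
    (hc : ContinuousOn (fun p : Z × ℝ => η p.1 p.2) D.S) (h0 : ∀ z, η z 0 = 0)
    (hm : ∀ z, StrictMonoOn (η z) (Icc 0 (D.h z))) (ht : ∀ z, η z (D.h z) = D'.h (σ z)) :
    ∃ f : D.F ≃ₜ D'.F, ∀ z y, 0 ≤ y → y ≤ D.h z → f (D.pt z y) = D'.pt (σ z) (η z y) := by
  classical
  have hη0 : ∀ {z y}, 0 ≤ y → y ≤ D.h z → 0 ≤ η z y := by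
    intro z y hy0 hy1
    rw [← h0 z]
    exact (hm z).monotoneOn ⟨le_rfl, D.h_nonneg z⟩ ⟨hy0, hy1⟩ hy0
  have hη1 : ∀ {z y}, 0 ≤ y → y ≤ D.h z → η z y ≤ D'.h (σ z) := by
    intro z y hy0 hy1
    rw [← ht z]
    exact (hm z).monotoneOn ⟨hy0, hy1⟩ ⟨D.h_nonneg z, le_rfl⟩ hy1
  choose zf yf hf0 hf1 hf2 using D.exists_pt
  set F : D.F → D'.F := fun p => D'.pt (σ (zf p)) (η (zf p) (yf p)) with hF
  have hFpt : ∀ z y, 0 ≤ y → y ≤ D.h z → F (D.pt z y) = D'.pt (σ z) (η z y) := by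
    intro z y hy0 hy1
    obtain ⟨h2, h3⟩ := D.pt_eq_pt hy0 hy1 (hf0 _) (hf1 _) (hf2 (D.pt z y))
    rcases h3 with h3 | h3
    · simp only [hF]
      rw [← h2, h3, h0, h0, D'.pt_zero_eq, D'.pt_zero_eq]
    · simp only [hF]
      rw [← h2, ← h3]
  have hcont : Continuous F := by
    refine continuous_iff_isClosed.2 ?_
    intro A hA
    have h1 := D'.isClosed_preimage hA
    have h2 : ContinuousOn (fun p : Z × ℝ => ((σ p.1, η p.1 p.2) : Z' × ℝ)) D.S :=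
      (σ.continuous.comp continuous_fst).continuousOn.prodMk hc
    have h3 := h2.preimage_isClosed_of_isClosed D.isClosed_S h1
    have h4 := D.isClosed_image h3
    convert h4 using 1
    ext p
    constructor
    · intro hp
      refine ⟨zf p, yf p, ⟨⟨hf0 p, hf1 p⟩, hη0 (hf0 p) (hf1 p), hη1 (hf0 p) (hf1 p), hp⟩,
        hf0 p, hf1 p, hf2 p⟩
    · rintro ⟨z, y, ⟨-, -, -, hp⟩, hy0, hy1, rfl⟩
      show F (D.pt z y) ∈ A
      rw [hFpt z y hy0 hy1]
      exact hp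
  have hinj : Function.Injective F := by
    intro p r hpr
    obtain ⟨z, y, hy0, hy1, rfl⟩ := D.exists_pt p
    obtain ⟨z', y', hy0', hy1', rfl⟩ := D.exists_pt r
    rw [hFpt z y hy0 hy1, hFpt z' y' hy0' hy1'] at hpr
    obtain ⟨h2, h3⟩ := D'.pt_eq_pt (hη0 hy0 hy1) (hη1 hy0 hy1) (hη0 hy0' hy1') (hη1 hy0' hy1') hpr
    rcases h3 with h3 | h3
    · have e1 : y = 0 := (hm z).injOn ⟨hy0, hy1⟩ ⟨le_rfl, D.h_nonneg z⟩ (by rw [h3, h0])
      have e2 : y' = 0 := (hm z').injOn ⟨hy0', hy1'⟩ ⟨le_rfl, D.h_nonneg z'⟩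
        (by rw [← h2, h3, h0])
      rw [e1, e2, D.pt_zero_eq, D.pt_zero_eq]
    · have h4 := σ.injective h3
      subst h4
      rw [(hm z).injOn ⟨hy0, hy1⟩ ⟨hy0', hy1'⟩ h2]
  have hsurj : Function.Surjective F := by
    intro p
    obtain ⟨w, t, ht0, ht1, rfl⟩ := D'.exists_pt p
    obtain ⟨z, rfl⟩ := σ.surjective w
    have hcz : ContinuousOn (η z) (Icc 0 (D.h z)) := by
      have : ContinuousOn (fun y : ℝ => ((z, y) : Z × ℝ)) (Icc 0 (D.h z)) :=
        (continuous_const.prodMk continuous_id).continuousOn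
      exact hc.comp this (fun y hy => hy)
    obtain ⟨y, hy, hyt⟩ := intermediate_value_Icc (D.h_nonneg z) hcz
      (show t ∈ Icc (η z 0) (η z (D.h z)) by rw [h0, ht]; exact ⟨ht0, ht1⟩)
    exact ⟨D.pt z y, by rw [hFpt z y hy.1 hy.2, hyt]⟩
  refine ⟨Continuous.homeoOfEquivCompactToT2 (f := Equiv.ofBijective F ⟨hinj, hsurj⟩) hcont, ?_⟩
  intro z y hy0 hy1
  exact hFpt z y hy0 hy1

section maps

variable {D D'}

/-- A homeomorphism maps the segment `[o,p]` onto the segment `[o',f p]`. -/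
theorem image_seg (f : D.F ≃ₜ D'.F) (ho : f D.o = D'.o) (p : D.F) :
    f '' D.seg p = D'.seg (f p) := by
  apply D'.arc_eq_seg
  by_cases hp : p = D.o
  · subst hp
    right
    rw [ho, D.seg_o]
    exact ⟨rfl, by rw [image_singleton, ho]⟩
  · left
    rw [← ho]
    exact (D.seg_arc hp).image f

theorem ht_lt_of_homeo (f : D.F ≃ₜ D'.F) (ho : f D.o = D'.o) {z : Z} {y y' : ℝ} (h0 : 0 ≤ y)
    (h : y < y') (h1 : y' ≤ D.h z) : D'.ht (f (D.pt z y)) < D'.ht (f (D.pt z y')) := by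
  have h2 : D.pt z y ∈ D.seg (D.pt z y') :=
    (D.mem_seg_pt (h0.trans h.le) h1).2 ⟨y, h0, h.le, rfl⟩
  have h3 : f (D.pt z y) ∈ D'.seg (f (D.pt z y')) := by
    rw [← image_seg f ho]
    exact mem_image_of_mem f h2
  have hne : f (D.pt z y) ≠ f (D.pt z y') := by
    intro he
    have := (D.pt_eq_pt h0 (h.le.trans h1) (h0.trans h.le) h1 (f.injective he)).1
    exact h.ne this
  obtain ⟨w, t, ht0, ht1, hw⟩ := D'.exists_pt (f (D.pt z y'))
  rw [hw] at h3 hne ⊢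
  obtain ⟨s, hs0, hs1, hs⟩ := (D'.mem_seg_pt ht0 ht1).1 h3
  rw [hs] at hne ⊢
  rw [D'.ht_pt hs0 (hs1.trans ht1), D'.ht_pt ht0 ht1]
  refine lt_of_le_of_ne hs1 ?_
  rintro rfl
  exact hne rfl

theorem ht_le_of_homeo (f : D.F ≃ₜ D'.F) (ho : f D.o = D'.o) {z : Z} {y y' : ℝ} (h0 : 0 ≤ y)
    (h : y ≤ y') (h1 : y' ≤ D.h z) : D'.ht (f (D.pt z y)) ≤ D'.ht (f (D.pt z y')) := by
  rcases h.lt_or_eq with h | h
  · exact (ht_lt_of_homeo f ho h0 h h1).le
  · rw [h]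

end maps

end FanData

end Q173Fan
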