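import Pool.Agent.Q173.FanTreeEPG

/-!
# Smooth fans with exactly six orbits: the construction
-/

set_option linter.unusedSectionVars false

namespace Q173Fan

open Set Topology Filter OnePoint

/-! ### The heights -/

/-- The heights `2^k / (1 + 2^k)`, `k ∈ ℤ`. -/
noncomputable def rho (k : ℤ) : ℝ := (2 : ℝ) ^ k / (1 + (2 : ℝ) ^ k)

theorem rho_pos (k : ℤ) : 0 < rho k := by
  unfold rho
  have : (0 : ℝ) < 2 ^ k := zpow_pos (by norm_num) k
  positivity

theorem rho_lt_one (k : ℤ) : rho k < 1 := by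
  unfold rho
  have : (0 : ℝ) < 2 ^ k := zpow_pos (by norm_num) k
  rw [div_lt_one (by linarith)]
  linarith

theorem rho_strictMono : StrictMono rho := by
  intro j k h
  have hj : (0 : ℝ) < 2 ^ j := zpow_pos (by norm_num) j
  have hk : (0 : ℝ) < 2 ^ k := zpow_pos (by norm_num) k
  have h1 : (2 : ℝ) ^ j < 2 ^ k := zpow_lt_zpow_right₀ (by norm_num) h
  unfold rho
  rw [div_lt_div_iff₀ (by linarith) (by linarith)]
  nlinarith

theorem exists_gap {y : ℝ} (h0 : 0 < y) (h1 : y < 1) : ∃ k : ℤ, rho k ≤ y ∧ y < rho (k + 1) := by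
  have hy : 0 < y / (1 - y) := div_pos h0 (by linarith)
  obtain ⟨k, hk1, hk2⟩ := exists_mem_Ico_zpow hy (show (1 : ℝ) < 2 by norm_num)
  have hk : (0 : ℝ) < 2 ^ k := zpow_pos (by norm_num) k
  have hk' : (0 : ℝ) < 2 ^ (k + 1) := zpow_pos (by norm_num) _
  rw [le_div_iff₀ (by linarith)] at hk1
  rw [div_lt_iff₀ (by linarith)] at hk2
  refine ⟨k, ?_, ?_⟩
  · unfold rho
    rw [div_le_iff₀ (by linarith)]
    nlinarith
  · unfold rho
    rw [lt_div_iff₀ (by linarith)]
    nlinarith

theorem rho_tendsto : Tendsto (fun k : ℕ => rho k) atTop (𝓝 1) := by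
  have h1 : Tendsto (fun k : ℕ => (1 / 2 : ℝ) ^ k) atTop (𝓝 0) :=
    tendsto_pow_atTop_nhds_zero_of_lt_one (by norm_num) (by norm_num)
  have h2 : (fun k : ℕ => rho k) = fun k : ℕ => 1 / (1 + (1 / 2 : ℝ) ^ k) := by
    funext k
    unfold rho
    have h3 : (0 : ℝ) < 2 ^ k := by positivity
    rw [zpow_natCast, one_div_pow]
    field_simp
    ring
  rw [h2]
  have h3 : Tendsto (fun k : ℕ => 1 / (1 + (1 / 2 : ℝ) ^ k)) atTop (𝓝 (1 / (1 + 0))) :=
    tendsto_const_nhds.div (tendsto_const_nhds.add h1) (by norm_num)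
  simpa using h3

/-! ### The fan -/

/-- Indices of the isolated blades. -/
abbrev J : Type := ℕ × ℤ

/-- The space of directions of the fan with `m + 1` main blades. -/
abbrev SZ (m : ℕ) : Type := Fin (m + 1) × OnePoint J

/-- Auxiliary slope. -/
noncomputable def sg (w : OnePoint J) : ℝ :=
  w.elim 0 (fun p => 1 / (2 + (Encodable.encode p : ℝ)))

theorem sg_infty : sg ∞ = 0 := rfl

theorem sg_coe (p : J) : sg (p : OnePoint J) = 1 / (2 + (Encodable.encode p : ℝ)) := rfl

theorem sg_cont : Continuous sg := by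
  rw [continuous_iff_from_discrete]
  simp only [sg_coe, sg_infty]
  have h1 : Tendsto (fun p : J => Encodable.encode p) cofinite atTop := by
    rw [← Nat.cofinite_eq_atTop]
    exact Encodable.encode_injective.tendsto_cofinite
  have h2 : Tendsto (fun p : J => (Encodable.encode p : ℝ)) cofinite atTop :=
    tendsto_natCast_atTop_atTop.comp h1
  have h3 : Tendsto (fun p : J => 2 + (Encodable.encode p : ℝ)) cofinite atTop :=
    tendsto_atTop_add_const_left _ _ h2
  simp only [one_div]
  exact h3.inv_tendsto_atTop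

theorem sg_nonneg (w : OnePoint J) : 0 ≤ sg w := by
  cases w with
  | infty => rw [sg_infty]
  | coe p => rw [sg_coe]; positivity

theorem sg_lt (w : OnePoint J) : sg w < 1 := by
  cases w with
  | infty => rw [sg_infty]; norm_num
  | coe p =>
    rw [sg_coe]
    have : (0 : ℝ) ≤ Encodable.encode p := Nat.cast_nonneg _
    rw [div_lt_one (by linarith)]
    linarith

theorem sg_inj : Function.Injective sg := by
  intro w w' h
  cases w with
  | infty =>
    cases w' with
    | infty => rfl
    | coe p =>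
      rw [sg_infty, sg_coe] at h
      have : (0 : ℝ) < 1 / (2 + (Encodable.encode p : ℝ)) := by positivity
      linarith
  | coe p =>
    cases w' with
    | infty =>
      rw [sg_infty, sg_coe] at h
      have : (0 : ℝ) < 1 / (2 + (Encodable.encode p : ℝ)) := by positivity
      linarith
    | coe p' =>
      rw [sg_coe, sg_coe] at h
      have h0 : (0 : ℝ) < 2 + (Encodable.encode p : ℝ) := by positivity
      have h0' : (0 : ℝ) < 2 + (Encodable.encode p' : ℝ) := by positivity
      rw [div_eq_div_iff h0.ne' h0'.ne'] at h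
      have h1 : (Encodable.encode p : ℝ) = Encodable.encode p' := by linarith
      have h2 : Encodable.encode p = Encodable.encode p' := by exact_mod_cast h1
      rw [Encodable.encode_injective h2]

/-- The height of the blade in direction `w`. -/
noncomputable def sk (w : OnePoint J) : ℝ := w.elim 1 (fun p => rho p.2)

theorem sk_infty : sk ∞ = 1 := rfl

theorem sk_coe (p : J) : sk (p : OnePoint J) = rho p.2 := rfl

theorem sk_pos (w : OnePoint J) : 0 < sk w := by
  cases w with
  | infty => rw [sk_infty]; norm_num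
  | coe p => rw [sk_coe]; exact rho_pos _

theorem sk_le (w : OnePoint J) : sk w ≤ 1 := by
  cases w with
  | infty => rw [sk_infty]
  | coe p => rw [sk_coe]; exact (rho_lt_one _).le

theorem isOpen_iso {m : ℕ} (i : Fin (m + 1)) (p : J) : IsOpen ({(i, (p : OnePoint J))} : Set (SZ m)) := by
  have h1 : IsOpen ({(p : OnePoint J)} : Set (OnePoint J)) := by
    have := (isOpen_image_coe (X := J) (s := {p})).2 (isOpen_discrete _)
    rwa [image_singleton] at this
  have h2 : ({(i, (p : OnePoint J))} : Set (SZ m)) = {i} ×ˢ {(p : OnePoint J)} := by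
    rw [singleton_prod_singleton]
  rw [h2]
  exact (isOpen_discrete _).prod h1

/-- The fan with `m + 1` main blades. -/
noncomputable def six (m : ℕ) : FanData (SZ m) where
  x z := (z.1 : ℕ) + sg z.2
  h z := sk z.2
  x_cont := by
    refine Continuous.add ?_ (sg_cont.comp continuous_snd)
    exact (continuous_of_discreteTopology (f := fun i : Fin (m + 1) => ((i : ℕ) : ℝ))).comp
      continuous_fst
  x_inj := by
    rintro ⟨i, w⟩ ⟨i', w'⟩ h
    simp only at h
    have a1 := sg_nonneg w
    have a2 := sg_lt w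
    have a3 := sg_nonneg w'
    have a4 := sg_lt w'
    have h1 : (i : ℕ) = i' := by
      have h2 : ((i : ℕ) : ℝ) < (i' : ℕ) + 1 := by linarith
      have h3 : ((i' : ℕ) : ℝ) < (i : ℕ) + 1 := by linarith
      have h4 : (i : ℕ) < i' + 1 := by exact_mod_cast h2
      have h5 : (i' : ℕ) < i + 1 := by exact_mod_cast h3
      omega
    have h2 : i = i' := Fin.ext h1
    subst h2
    rw [sg_inj (add_left_cancel h)]
  h_nonneg z := (sk_pos _).le
  h_le z := sk_le _
  usc := by
    rintro ⟨i, w⟩ y hy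
    cases w with
    | infty =>
      refine Eventually.of_forall fun z => ?_
      exact (sk_le z.2).trans_lt hy
    | coe p =>
      have := (isOpen_iso i p).mem_nhds (mem_singleton _)
      filter_upwards [this] with z hz
      rw [mem_singleton_iff.1 hz]
      exact hy

theorem six_h (m : ℕ) (z : SZ m) : (six m).h z = sk z.2 := rfl

theorem six_h_main (m : ℕ) (i : Fin (m + 1)) : (six m).h (i, ∞) = 1 := rfl

theorem six_h_iso (m : ℕ) (i : Fin (m + 1)) (p : J) :
    (six m).h (i, (p : OnePoint J)) = rho p.2 := rfl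

theorem six_h_pos (m : ℕ) (z : SZ m) : 0 < (six m).h z := sk_pos _

theorem isSmoothFan_six (m : ℕ) : IsSmoothFan (six m).F (six m).o := by
  refine (six m).isSmoothFan (z := (0, ∞)) (w := (0, ((0, 0) : J))) (u := (0, ((1, 0) : J)))
    (six_h_pos _ _) (six_h_pos _ _) (six_h_pos _ _) ?_ ?_ ?_
  · intro h
    exact infty_ne_coe _ (congrArg Prod.snd h)
  · intro h
    exact infty_ne_coe _ (congrArg Prod.snd h)
  · intro h
    have h1 := congrArg Prod.snd h
    simp only [OnePoint.coe_eq_coe] at h1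
    simp at h1

theorem isEndPoint_six (m : ℕ) (p : (six m).F) :
    IsEndPoint p ↔ ∃ z, p = (six m).pt z ((six m).h z) := by
  rw [(six m).isEndPoint_iff (z := (0, ∞)) (w := (0, ((0, 0) : J))) (six_h_pos _ _)
    (six_h_pos _ _) (by
      intro h
      exact infty_ne_coe _ (congrArg Prod.snd h))]
  exact ⟨fun ⟨z, _, h⟩ => ⟨z, h⟩, fun ⟨z, h⟩ => ⟨z, six_h_pos _ _, h⟩⟩

/-! ### Homeomorphisms -/

/-- The two points are in the same orbit. -/
def Rel {m : ℕ} (p r : (six m).F) : Prop := ∃ f : (six m).F ≃ₜ (six m).F, f p = r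

theorem Rel.refl {m : ℕ} (p : (six m).F) : Rel p p := ⟨Homeomorph.refl _, rfl⟩

theorem Rel.symm {m : ℕ} {p r : (six m).F} (h : Rel p r) : Rel r p := by
  obtain ⟨f, rfl⟩ := h
  exact ⟨f.symm, f.symm_apply_apply p⟩

theorem Rel.trans {m : ℕ} {p r s : (six m).F} (h : Rel p r) (h' : Rel r s) : Rel p s := by
  obtain ⟨f, rfl⟩ := h
  obtain ⟨g, rfl⟩ := h'
  exact ⟨f.trans g, rfl⟩

/-- A homeomorphism of a discrete space. -/
def homeoOfEquiv {α : Type*} [TopologicalSpace α] [DiscreteTopology α] (e : α ≃ α) : α ≃ₜ α where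
  toEquiv := e
  continuous_toFun := continuous_of_discreteTopology
  continuous_invFun := continuous_of_discreteTopology

/-- Permuting directions. -/
noncomputable def dirHomeo {m : ℕ} (e : Equiv.Perm (Fin (m + 1))) (π : Equiv.Perm J) :
    SZ m ≃ₜ SZ m := (homeoOfEquiv e).prodCongr (homeoOfEquiv π).onePointCongr

theorem dirHomeo_main {m : ℕ} (e : Equiv.Perm (Fin (m + 1))) (π : Equiv.Perm J)
    (i : Fin (m + 1)) : dirHomeo e π (i, ∞) = (e i, ∞) := rfl

theorem dirHomeo_iso {m : ℕ} (e : Equiv.Perm (Fin (m + 1))) (π : Equiv.Perm J)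
    (i : Fin (m + 1)) (p : J) :
    dirHomeo e π (i, (p : OnePoint J)) = (e i, ((π p : J) : OnePoint J)) := rfl

theorem exists_homeo_uniform {m : ℕ} (e : Equiv.Perm (Fin (m + 1))) (π : Equiv.Perm J)
    (η : ℝ → ℝ) (hc : ContinuousOn η (Icc 0 1)) (h0 : η 0 = 0) (h1 : η 1 = 1)
    (hm : StrictMonoOn η (Icc 0 1)) (hπ : ∀ p : J, η (rho p.2) = rho (π p).2) :
    ∃ f : (six m).F ≃ₜ (six m).F, ∀ z y, 0 ≤ y → y ≤ (six m).h z →
      f ((six m).pt z y) = (six m).pt (dirHomeo e π z) (η y) := by
  refine (six m).exists_homeo (six m) (dirHomeo e π) (fun _ y => η y) ?_ (fun _ => h0) ?_ ?_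
  · refine hc.comp continuous_snd.continuousOn ?_
    rintro ⟨z, y⟩ ⟨hy0, hy1⟩
    exact ⟨hy0, hy1.trans ((six m).h_le z)⟩
  · intro z
    exact hm.mono (Icc_subset_Icc le_rfl ((six m).h_le z))
  · rintro ⟨i, w⟩
    cases w with
    | infty => rw [dirHomeo_main, six_h_main, six_h_main, h1]
    | coe p => rw [dirHomeo_iso, six_h_iso, six_h_iso, hπ]

/-- Permuting the components. -/
theorem rel_perm {m : ℕ} (i i' : Fin (m + 1)) (w : OnePoint J) {y : ℝ} (h0 : 0 ≤ y)
    (h1 : y ≤ sk w) : Rel ((six m).pt (i, w) y) ((six m).pt (i', w) y) := by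
  obtain ⟨f, hf⟩ := exists_homeo_uniform (m := m) (Equiv.swap i i') (Equiv.refl J) id
    continuousOn_id rfl rfl (fun _ _ _ _ h => h) (fun p => rfl)
  refine ⟨f, ?_⟩
  rw [hf (i, w) _ h0 h1]
  cases w with
  | infty => rw [dirHomeo_main, Equiv.swap_apply_left]; rfl
  | coe p => rw [dirHomeo_iso, Equiv.swap_apply_left]; rfl

/-- Permuting isolated blades of equal height. -/
theorem rel_iso {m : ℕ} (i : Fin (m + 1)) (n n' : ℕ) (k : ℤ) {y : ℝ} (h0 : 0 ≤ y)
    (h1 : y ≤ rho k) : Rel ((six m).pt (i, ((n, k) : J)) y) ((six m).pt (i, ((n', k) : J)) y) := by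
  obtain ⟨f, hf⟩ := exists_homeo_uniform (m := m) (Equiv.refl _)
    (Equiv.swap ((n, k) : J) (n', k)) id continuousOn_id rfl rfl (fun _ _ _ _ h => h) (by
      intro p
      by_cases hp : p = (n, k)
      · rw [hp, Equiv.swap_apply_left]; rfl
      · by_cases hp' : p = (n', k)
        · rw [hp', Equiv.swap_apply_right]; rfl
        · rw [Equiv.swap_apply_of_ne_of_ne hp hp']; rfl)
  refine ⟨f, ?_⟩
  rw [hf (i, ((n, k) : J)) _ h0 h1, dirHomeo_iso, Equiv.swap_apply_left]
  rfl

/-- The projective map multiplying `y/(1-y)` by `2^j`. -/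
noncomputable def proj (j : ℤ) (y : ℝ) : ℝ := (2 : ℝ) ^ j * y / (1 - y + (2 : ℝ) ^ j * y)

theorem proj_den {j : ℤ} {y : ℝ} (hy : y ∈ Icc (0 : ℝ) 1) : 0 < 1 - y + (2 : ℝ) ^ j * y := by
  have hj : (0 : ℝ) < 2 ^ j := zpow_pos (by norm_num) j
  rcases hy.1.lt_or_eq with h | h
  · have := mul_pos hj h
    linarith [hy.2]
  · rw [← h]; norm_num

theorem proj_cont (j : ℤ) : ContinuousOn (proj j) (Icc 0 1) := by
  unfold proj
  refine ContinuousOn.div (by fun_prop) (by fun_prop) ?_
  intro y hy
  exact (proj_den hy).ne'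

theorem proj_zero (j : ℤ) : proj j 0 = 0 := by simp [proj]

theorem proj_one (j : ℤ) : proj j 1 = 1 := by
  have hj : (2 : ℝ) ^ j ≠ 0 := (zpow_pos (by norm_num) j).ne'
  simp [proj, hj]

theorem proj_mono (j : ℤ) : StrictMonoOn (proj j) (Icc 0 1) := by
  intro y hy y' hy' h
  have hj : (0 : ℝ) < 2 ^ j := zpow_pos (by norm_num) j
  unfold proj
  rw [div_lt_div_iff₀ (proj_den hy) (proj_den hy')]
  have h1 : (2 : ℝ) ^ j * y' * (1 - y + 2 ^ j * y) - 2 ^ j * y * (1 - y' + 2 ^ j * y') =
      2 ^ j * (y' - y) := by ring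
  have h2 : 0 < (2 : ℝ) ^ j * (y' - y) := mul_pos hj (by linarith)
  linarith

theorem proj_rho (j k : ℤ) : proj j (rho k) = rho (k + j) := by
  have hj : (0 : ℝ) < 2 ^ j := zpow_pos (by norm_num) j
  have hk : (0 : ℝ) < 2 ^ k := zpow_pos (by norm_num) k
  unfold proj rho
  rw [zpow_add₀ (by norm_num : (2 : ℝ) ≠ 0)]
  have h1 : (1 : ℝ) + 2 ^ k ≠ 0 := by positivity
  have h2 : (1 : ℝ) - 2 ^ k / (1 + 2 ^ k) + 2 ^ j * (2 ^ k / (1 + 2 ^ k)) =
      (1 + 2 ^ k * 2 ^ j) / (1 + 2 ^ k) := by
    field_simp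
    ring
  rw [h2]
  have h3 : (1 : ℝ) + 2 ^ k * 2 ^ j ≠ 0 := by positivity
  field_simp

theorem exists_shift {m : ℕ} (j : ℤ) : ∃ f : (six m).F ≃ₜ (six m).F,
    (∀ i y, 0 ≤ y → y ≤ 1 → f ((six m).pt (i, ∞) y) = (six m).pt (i, ∞) (proj j y)) ∧
    (∀ i n k y, 0 ≤ y → y ≤ rho k → f ((six m).pt (i, ((n, k) : J)) y) =
      (six m).pt (i, ((n, k + j) : J)) (proj j y)) := by
  obtain ⟨f, hf⟩ := exists_homeo_uniform (m := m) (Equiv.refl _)
    ((Equiv.refl ℕ).prodCongr (Equiv.addRight j)) (proj j) (proj_cont j) (proj_zero j)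
    (proj_one j) (proj_mono j) (fun p => proj_rho j p.2)
  exact ⟨f, fun i y h0 h1 => hf _ _ h0 h1, fun i n k y h0 h1 => hf _ _ h0 h1⟩

/-- A piecewise linear homeomorphism moving `y` to `y' ≥ y` inside `(a,b)`. -/
noncomputable def bump (a b y y' t : ℝ) : ℝ :=
  max t (min (a + (t - a) * ((y' - a) / (y - a))) (b + (t - b) * ((b - y') / (b - y))))

section bump

variable {a b y y' : ℝ} (h1 : a < y) (h2 : y ≤ y') (h3 : y' < b)
include h1 h2 h3

theorem bump_cont : Continuous (bump a b y y') := by unfold bump; fun_prop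

theorem bump_low {t : ℝ} (ht : t ≤ a) : bump a b y y' t = t := by
  have hs : 1 ≤ (y' - a) / (y - a) := by rw [one_le_div (by linarith)]; linarith
  unfold bump
  refine max_eq_left ((min_le_left _ _).trans ?_)
  nlinarith

theorem bump_high {t : ℝ} (ht : b ≤ t) : bump a b y y' t = t := by
  have hs : (b - y') / (b - y) ≤ 1 := by rw [div_le_one (by linarith)]; linarith
  unfold bump
  refine max_eq_left ((min_le_right _ _).trans ?_)
  nlinarith

theorem bump_mono : StrictMono (bump a b y y') := by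
  intro s t hst
  have e1 : 0 < (y' - a) / (y - a) := div_pos (by linarith) (by linarith)
  have e2 : 0 < (b - y') / (b - y) := div_pos (by linarith) (by linarith)
  unfold bump
  refine max_lt_max hst (min_lt_min ?_ ?_)
  · have := mul_lt_mul_of_pos_right (sub_lt_sub_right hst a) e1
    linarith
  · have := mul_lt_mul_of_pos_right (sub_lt_sub_right hst b) e2
    linarith

theorem bump_apply : bump a b y y' y = y' := by
  unfold bump
  have e1 : (y - a) * ((y' - a) / (y - a)) = y' - a := by
    have : y - a ≠ 0 := by intro h; linarith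
    field_simp
  have e2 : (y - b) * ((b - y') / (b - y)) = -(b - y') := by
    have : b - y ≠ 0 := by intro h; linarith
    field_simp
    ring
  rw [e1, e2]
  have e3 : a + (y' - a) = y' := by ring
  have e4 : b + -(b - y') = y' := by ring
  rw [e3, e4, min_self, max_eq_right h2]

end bump

/-- Moving points of a gap of the main blades. -/
theorem rel_gap {m : ℕ} (i : Fin (m + 1)) (k : ℤ) {y y' : ℝ} (h1 : rho k < y)
    (h1' : y < rho (k + 1)) (h2 : rho k < y') (h2' : y' < rho (k + 1)) :
    Rel ((six m).pt (i, ∞) y) ((six m).pt (i, ∞) y') := by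
  wlog h : y ≤ y' generalizing y y'
  · exact (this h2 h2' h1 h1' (not_le.1 h).le).symm
  have hk0 := rho_pos k
  have hk1 := rho_lt_one (k + 1)
  obtain ⟨f, hf⟩ := exists_homeo_uniform (m := m) (Equiv.refl _) (Equiv.refl J)
    (bump (rho k) (rho (k + 1)) y y') (bump_cont h1 h h2').continuousOn
    (bump_low h1 h h2' hk0.le) (bump_high h1 h h2' hk1.le)
    ((bump_mono h1 h h2').strictMonoOn _) (by
      intro p
      rcases le_or_gt p.2 k with hp | hp
      · exact bump_low h1 h h2' (rho_strictMono.monotone hp)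
      · exact bump_high h1 h h2' (rho_strictMono.monotone hp))
  refine ⟨f, ?_⟩
  rw [hf _ _ (by linarith) (by rw [six_h_main]; linarith), bump_apply h1 h h2', dirHomeo_main]
  rfl

/-- Moving points of one isolated blade. -/
theorem rel_blade {m : ℕ} (i : Fin (m + 1)) (p : J) {y y' : ℝ} (h1 : 0 < y)
    (h1' : y < rho p.2) (h2 : 0 < y') (h2' : y' < rho p.2) :
    Rel ((six m).pt (i, (p : OnePoint J)) y) ((six m).pt (i, (p : OnePoint J)) y') := by
  classical
  wlog h : y ≤ y' generalizing y y'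
  · exact (this h2 h2' h1 h1' (not_le.1 h).le).symm
  set z : SZ m := (i, (p : OnePoint J)) with hz
  have hcl : IsClopen ({z} : Set (SZ m)) := ⟨isClosed_singleton, isOpen_iso i p⟩
  have hcont : Continuous (fun q : SZ m × ℝ =>
      if q.1 = z then bump 0 (rho p.2) y y' q.2 else q.2) := by
    refine Continuous.if (p := fun q : SZ m × ℝ => q.1 = z) ?_
      ((bump_cont h1 h h2').comp continuous_snd) continuous_snd
    intro q hq
    have h3 : IsClopen {q : SZ m × ℝ | q.1 = z} := hcl.preimage continuous_fst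
    rw [h3.frontier_eq] at hq
    exact absurd hq (notMem_empty _)
  obtain ⟨f, hf⟩ := (six m).exists_homeo (six m) (Homeomorph.refl _)
    (fun w t => if w = z then bump 0 (rho p.2) y y' t else t) hcont.continuousOn (by
      intro w
      by_cases hw : w = z
      · simp only [hw, if_true]; exact bump_low h1 h h2' le_rfl
      · simp only [hw, if_false]) (by
      intro w s _ t _ hst
      by_cases hw : w = z
      · simp only [hw, if_true]; exact bump_mono h1 h h2' hst
      · simp only [hw, if_false]; exact hst) (by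
      intro w
      by_cases hw : w = z
      · simp only [hw, if_true]
        exact bump_high h1 h h2' le_rfl
      · simp only [hw, if_false]
        rfl)
  refine ⟨f, ?_⟩
  rw [hf z _ h1.le h1'.le]
  simp only [if_true, bump_apply h1 h h2']
  rfl

end Q173Fan
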