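import Pool.Agent.Q173.FanSix

/-!
# Smooth fans with exactly six orbits: the orbits
-/

set_option linter.unusedSectionVars false

namespace Q173Fan

open Set Topology Filter OnePoint

/-- `p` is a limit of other end points. -/
def Lp {X : Type*} [TopologicalSpace X] (p : X) : Prop := p ∈ closure ({x | IsEndPoint x} \ {p})

theorem Lp.image {X Y : Type*} [TopologicalSpace X] [TopologicalSpace Y] {p : X} (h : Lp p)
    (f : X ≃ₜ Y) : Lp (f p) := by
  unfold Lp at *
  have h1 : f p ∈ f '' closure ({x | IsEndPoint x} \ {p}) := mem_image_of_mem f h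
  rw [f.image_closure, image_diff f.injective, image_setOf_isEndPoint, image_singleton] at h1
  exact h1

theorem Lp_image_iff {X Y : Type*} [TopologicalSpace X] [TopologicalSpace Y] {p : X}
    (f : X ≃ₜ Y) : Lp (f p) ↔ Lp p :=
  ⟨fun h => by simpa using h.image f.symm, fun h => h.image f⟩

/-- The blade through `p` ends in a limit of end points. -/
def Mp {X : Type*} [TopologicalSpace X] (t p : X) : Prop :=
  ∃ (e : X) (A : Set X), IsEndPoint e ∧ Lp e ∧ IsArcBetween A t e ∧ p ∈ A

theorem Mp.image {X Y : Type*} [TopologicalSpace X] [TopologicalSpace Y] {t p : X} (h : Mp t p)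
    (f : X ≃ₜ Y) : Mp (f t) (f p) := by
  obtain ⟨e, A, h1, h2, h3, h4⟩ := h
  exact ⟨f e, f '' A, h1.image f, h2.image f, h3.image f, mem_image_of_mem f h4⟩

theorem Mp_image_iff {X Y : Type*} [TopologicalSpace X] [TopologicalSpace Y] {t p : X}
    (f : X ≃ₜ Y) : Mp (f t) (f p) ↔ Mp t p :=
  ⟨fun h => by simpa using h.image f.symm, fun h => h.image f⟩

open Classical in
/-- The topological type of a point of a fan with top `t`. -/
noncomputable def cls {X : Type*} [TopologicalSpace X] (t p : X) : Fin 6 :=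
  if p = t then 0 else if IsEndPoint p ∧ Lp p then 1 else if IsEndPoint p then 2 else
    if ¬ Mp t p then 3 else if Lp p then 4 else 5

theorem cls_image {X Y : Type*} [TopologicalSpace X] [TopologicalSpace Y] {t p : X}
    (f : X ≃ₜ Y) : cls (f t) (f p) = cls t p := by
  have e1 : (f p = f t) = (p = t) := propext f.injective.eq_iff
  have e2 : IsEndPoint (f p) = IsEndPoint p := propext (isEndPoint_image_iff f)
  have e3 : Lp (f p) = Lp p := propext (Lp_image_iff f)
  have e4 : Mp (f t) (f p) = Mp t p := propext (Mp_image_iff f)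
  unfold cls
  rw [e1, e2, e3, e4]

variable {m : ℕ}

theorem notL_iso (i : Fin (m + 1)) (p : J) {y : ℝ} (h0 : 0 < y) (h1 : y ≤ rho p.2) :
    ¬ Lp ((six m).pt (i, (p : OnePoint J)) y) := by
  set z : SZ m := (i, (p : OnePoint J)) with hz
  intro h
  have hK := (six m).isClosed_image (K := {q | q.1 ∈ ({z} : Set (SZ m))ᶜ})
    ((isOpen_iso i p).isClosed_compl.preimage continuous_fst)
  have hC : IsClosed ({(six m).pt z ((six m).h z)} \ {(six m).pt z y} : Set (six m).F) :=
    ((finite_singleton _).subset diff_subset).isClosed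
  have hsub : ({x | IsEndPoint x} \ {(six m).pt z y} : Set (six m).F) ⊆
      {r : (six m).F | ∃ z' y, (z', y) ∈ {q : SZ m × ℝ | q.1 ∈ ({z} : Set (SZ m))ᶜ} ∧ 0 ≤ y ∧
        y ≤ (six m).h z' ∧ r = (six m).pt z' y} ∪
      ({(six m).pt z ((six m).h z)} \ {(six m).pt z y} : Set (six m).F) := by
    rintro r ⟨hr, hr2⟩
    obtain ⟨w, rfl⟩ := (isEndPoint_six m r).1 hr
    by_cases hw : w = z
    · right
      subst hw
      exact ⟨rfl, hr2⟩
    · left
      exact ⟨w, _, hw, (six_h_pos m w).le, le_rfl, rfl⟩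
  rcases closure_minimal hsub (hK.union hC) h with ⟨w, t, hw, ht0, ht1, he⟩ | hd
  · obtain ⟨-, h2 | h2⟩ := (six m).pt_eq_pt (z := z) h0.le h1 ht0 ht1 he
    · exact h0.ne' h2
    · exact hw h2.symm
  · exact hd.2 rfl

theorem six_tip_isEndPoint (z : SZ m) : IsEndPoint ((six m).pt z ((six m).h z)) :=
  (isEndPoint_six m _).2 ⟨z, rfl⟩

theorem tendsto_dir (i : Fin (m + 1)) {u : ℕ → J} (hu : Function.Injective u) :
    Tendsto (fun n => ((i, ((u n : J) : OnePoint J)) : SZ m)) atTop (𝓝 (i, ∞)) := by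
  rw [nhds_prod_eq]
  refine tendsto_const_nhds.prodMk ?_
  have h1 : Tendsto u atTop (coclosedCompact J) := by
    have h2 : coclosedCompact J = cofinite := by
      rw [coclosedCompact_eq_cocompact, cocompact_eq_cofinite]
    rw [h2, ← Nat.cofinite_eq_atTop]
    exact hu.tendsto_cofinite
  exact tendsto_coe_infty.comp h1

theorem L_main_tip (i : Fin (m + 1)) : Lp ((six m).pt (i, ∞) 1) := by
  have h1 : Tendsto (fun n : ℕ => (six m).pt (i, (((0, (n : ℤ)) : J) : OnePoint J))
      (rho n)) atTop (𝓝 ((six m).pt (i, ∞) 1)) :=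
    (six m).tendsto_pt (tendsto_dir i (fun a b h => by simpa using h)) rho_tendsto
      (fun n => (rho_pos _).le) (fun n => le_rfl) zero_le_one le_rfl
  refine mem_closure_of_tendsto h1 (Eventually.of_forall fun n => ⟨?_, ?_⟩)
  · exact six_tip_isEndPoint (i, (((0, (n : ℤ)) : J) : OnePoint J))
  · intro h
    have := ((six m).pt_eq_pt (rho_pos _).le le_rfl zero_le_one le_rfl
      (mem_singleton_iff.1 h)).1
    exact (rho_lt_one n).ne this

theorem L_main_rho (i : Fin (m + 1)) (k : ℤ) : Lp ((six m).pt (i, ∞) (rho k)) := by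
  have h1 : Tendsto (fun n : ℕ => (six m).pt (i, (((n, k) : J) : OnePoint J))
      (rho k)) atTop (𝓝 ((six m).pt (i, ∞) (rho k))) :=
    (six m).tendsto_pt (tendsto_dir i (fun a b h => by simpa using h)) tendsto_const_nhds
      (fun n => (rho_pos _).le) (fun n => le_rfl) (rho_pos _).le (rho_lt_one _).le
  refine mem_closure_of_tendsto h1 (Eventually.of_forall fun n => ⟨?_, ?_⟩)
  · exact six_tip_isEndPoint (i, (((n, k) : J) : OnePoint J))
  · intro h
    have h2 := ((six m).pt_eq_pt (rho_pos _).le le_rfl (rho_pos _).le (rho_lt_one _).le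
      (mem_singleton_iff.1 h)).2
    rcases h2 with h2 | h2
    · exact (rho_pos k).ne' h2
    · exact infty_ne_coe _ (congrArg Prod.snd h2).symm

theorem notL_gap (i : Fin (m + 1)) {y : ℝ} (h0 : 0 < y) (h1 : y < 1) (hy : ∀ k, y ≠ rho k) :
    ¬ Lp ((six m).pt (i, ∞) y) := by
  intro h
  obtain ⟨k, hk1, hk2⟩ := exists_gap h0 h1
  have hk1' : rho k < y := lt_of_le_of_ne hk1 (Ne.symm (hy k))
  have hcl : IsClosed {r : (six m).F | (six m).ht r ≤ rho k ∨ rho (k + 1) ≤ (six m).ht r} :=
    (isClosed_le (six m).ht_cont continuous_const).union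
      (isClosed_le continuous_const (six m).ht_cont)
  have hsub : ({x | IsEndPoint x} \ {(six m).pt (i, ∞) y} : Set (six m).F) ⊆
      {r : (six m).F | (six m).ht r ≤ rho k ∨ rho (k + 1) ≤ (six m).ht r} := by
    rintro r ⟨hr, -⟩
    obtain ⟨⟨i', w⟩, rfl⟩ := (isEndPoint_six m r).1 hr
    simp only [mem_setOf_eq]
    rw [(six m).ht_pt (six_h_pos m _).le le_rfl]
    cases w with
    | infty => right; rw [six_h_main]; exact (rho_lt_one _).le
    | coe p =>
      rw [six_h_iso]
      rcases le_or_gt p.2 k with hp | hp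
      · left; exact rho_strictMono.monotone hp
      · right; exact rho_strictMono.monotone hp
  have h2 := closure_minimal hsub hcl h
  simp only [mem_setOf_eq] at h2
  rw [(six m).ht_pt (z := (i, ∞)) h0.le h1.le] at h2
  rcases h2 with h2 | h2 <;> linarith

theorem six_tip_ne_o (z : SZ m) : (six m).pt z ((six m).h z) ≠ (six m).o := by
  rw [Ne, (six m).pt_eq_o_iff (six_h_pos m z).le le_rfl]
  exact (six_h_pos m z).ne'

theorem M_main (i : Fin (m + 1)) {y : ℝ} (h0 : 0 ≤ y) (h1 : y ≤ 1) :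
    Mp (six m).o ((six m).pt (i, ∞) y) := by
  refine ⟨(six m).pt (i, ∞) 1, (six m).seg ((six m).pt (i, ∞) 1),
    six_tip_isEndPoint (i, ∞), L_main_tip i, (six m).seg_arc (six_tip_ne_o (i, ∞)), ?_⟩
  exact ((six m).mem_seg_pt zero_le_one le_rfl).2 ⟨y, h0, h1, rfl⟩

theorem notM_iso (i : Fin (m + 1)) (p : J) {y : ℝ} (h0 : 0 < y) (h1 : y ≤ rho p.2) :
    ¬ Mp (six m).o ((six m).pt (i, (p : OnePoint J)) y) := by
  rintro ⟨e, A, he, hL, hA, hpA⟩
  obtain ⟨w, rfl⟩ := (isEndPoint_six m e).1 he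
  rw [(six m).arc_eq_seg (Or.inl hA)] at hpA
  obtain ⟨s, hs0, hs1, hs⟩ := ((six m).mem_seg_pt (six_h_pos m w).le le_rfl).1 hpA
  obtain ⟨-, h2 | h2⟩ := (six m).pt_eq_pt (z := (i, (p : OnePoint J))) h0.le h1 hs0 hs1 hs
  · exact h0.ne' h2
  · subst h2
    exact notL_iso i p (rho_pos _) le_rfl hL

/-! ### The six classes -/

theorem cls_o : cls (six m).o (six m).o = 0 := by simp [cls]

theorem cls_1 (i : Fin (m + 1)) : cls (six m).o ((six m).pt (i, ∞) 1) = 1 := by
  have h1 : (six m).pt (i, ∞) 1 ≠ (six m).o := six_tip_ne_o (i, ∞)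
  have h2 : IsEndPoint ((six m).pt (i, ∞) 1) := six_tip_isEndPoint (i, ∞)
  simp [cls, h1, h2, L_main_tip]

theorem cls_2 (i : Fin (m + 1)) (p : J) :
    cls (six m).o ((six m).pt (i, (p : OnePoint J)) (rho p.2)) = 2 := by
  have h1 : (six m).pt (i, (p : OnePoint J)) (rho p.2) ≠ (six m).o :=
    six_tip_ne_o (i, (p : OnePoint J))
  have h2 : IsEndPoint ((six m).pt (i, (p : OnePoint J)) (rho p.2)) :=
    six_tip_isEndPoint (i, (p : OnePoint J))
  have h3 := notL_iso i p (rho_pos p.2) le_rfl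
  simp [cls, h1, h2, h3]

theorem cls_3 (i : Fin (m + 1)) (p : J) {y : ℝ} (h0 : 0 < y) (h1 : y < rho p.2) :
    cls (six m).o ((six m).pt (i, (p : OnePoint J)) y) = 3 := by
  have e1 : (six m).pt (i, (p : OnePoint J)) y ≠ (six m).o := by
    rw [Ne, (six m).pt_eq_o_iff (z := (i, (p : OnePoint J))) h0.le h1.le]; exact h0.ne'
  have e2 : ¬ IsEndPoint ((six m).pt (i, (p : OnePoint J)) y) :=
    (six m).not_isEndPoint_mid h0 h1
  have e3 := notM_iso i p h0 h1.le
  simp [cls, e1, e2, e3]

theorem cls_4 (i : Fin (m + 1)) (k : ℤ) : cls (six m).o ((six m).pt (i, ∞) (rho k)) = 4 := by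
  have e1 : (six m).pt (i, ∞) (rho k) ≠ (six m).o := by
    rw [Ne, (six m).pt_eq_o_iff (z := (i, ∞)) (rho_pos k).le (rho_lt_one k).le]
    exact (rho_pos k).ne'
  have e2 : ¬ IsEndPoint ((six m).pt (i, ∞) (rho k)) :=
    (six m).not_isEndPoint_mid (rho_pos k) (rho_lt_one k)
  have e3 := M_main i (rho_pos k).le (rho_lt_one k).le
  have e4 := L_main_rho i k
  simp [cls, e1, e2, e3, e4]

theorem cls_5 (i : Fin (m + 1)) {y : ℝ} (h0 : 0 < y) (h1 : y < 1) (hy : ∀ k, y ≠ rho k) :
    cls (six m).o ((six m).pt (i, ∞) y) = 5 := by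
  have e1 : (six m).pt (i, ∞) y ≠ (six m).o := by
    rw [Ne, (six m).pt_eq_o_iff (z := (i, ∞)) h0.le h1.le]; exact h0.ne'
  have e2 : ¬ IsEndPoint ((six m).pt (i, ∞) y) := (six m).not_isEndPoint_mid h0 h1
  have e3 := M_main i h0.le h1.le
  have e4 := notL_gap i h0 h1 hy
  simp [cls, e1, e2, e3, e4]

theorem rho_zero : rho 0 = 1 / 2 := by norm_num [rho]

theorem rho_one : rho 1 = 2 / 3 := by norm_num [rho]

theorem three_fifths (k : ℤ) : (3 / 5 : ℝ) ≠ rho k := by
  intro h
  rcases le_or_gt k 0 with hk | hk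
  · have := rho_strictMono.monotone hk
    rw [rho_zero] at this
    linarith
  · have : rho 1 ≤ rho k := rho_strictMono.monotone hk
    rw [rho_one] at this
    linarith

/-- Representatives of the classes. -/
noncomputable def rep (m : ℕ) : Fin 6 → (six m).F
  | 0 => (six m).o
  | 1 => (six m).pt (0, ∞) 1
  | 2 => (six m).pt (0, ((0, 0) : J)) (rho 0)
  | 3 => (six m).pt (0, ((0, 0) : J)) (1 / 4)
  | 4 => (six m).pt (0, ∞) (rho 0)
  | 5 => (six m).pt (0, ∞) (3 / 5)

theorem cls_rep (i : Fin 6) : cls (six m).o (rep m i) = i := by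
  fin_cases i
  · exact cls_o
  · exact cls_1 0
  · exact cls_2 0 (0, 0)
  · exact cls_3 0 (0, 0) (by norm_num) (by simp only [rho_zero]; norm_num)
  · exact cls_4 0 0
  · exact cls_5 0 (by norm_num) (by norm_num) three_fifths

theorem rel_rep (p : (six m).F) : Rel p (rep m (cls (six m).o p)) := by
  obtain ⟨⟨i, w⟩, y, h0, h1, rfl⟩ := (six m).exists_pt p
  rcases h0.lt_or_eq with h0' | h0'
  swap
  · rw [← h0', (six m).pt_zero_eq, cls_o]
    exact Rel.refl _
  cases w with
  | infty =>
    rw [six_h_main] at h1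
    refine (rel_perm i 0 ∞ h0 h1).trans ?_
    rcases h1.lt_or_eq with h1' | h1'
    swap
    · subst h1'
      rw [cls_1]
      exact Rel.refl _
    by_cases hy : ∃ k, y = rho k
    · obtain ⟨k, rfl⟩ := hy
      rw [cls_4]
      obtain ⟨f, hf, -⟩ := exists_shift (m := m) (-k)
      refine ⟨f, ?_⟩
      rw [hf 0 _ h0 h1, proj_rho, add_neg_cancel]
      rfl
    · push Not at hy
      rw [cls_5 i h0' h1' hy]
      obtain ⟨k, hk1, hk2⟩ := exists_gap h0' h1'
      have hk1' : rho k < y := lt_of_le_of_ne hk1 (Ne.symm (hy k))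
      obtain ⟨f, hf, -⟩ := exists_shift (m := m) (-k)
      have hr : Rel ((six m).pt (0, ∞) y) ((six m).pt (0, ∞) (proj (-k) y)) :=
        ⟨f, hf 0 _ h0 h1⟩
      refine hr.trans ?_
      have e1 : rho 0 < proj (-k) y := by
        have := proj_mono (-k) ⟨(rho_pos k).le, (rho_lt_one k).le⟩ ⟨h0, h1⟩ hk1'
        rwa [proj_rho, add_neg_cancel] at this
      have e2 : proj (-k) y < rho (0 + 1) := by
        have := proj_mono (-k) ⟨h0, h1⟩ ⟨(rho_pos (k + 1)).le, (rho_lt_one (k + 1)).le⟩ hk2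
        rw [proj_rho] at this
        have e3 : k + 1 + -k = 0 + 1 := by ring
        rwa [e3] at this
      exact rel_gap 0 0 e1 e2 (by rw [rho_zero]; norm_num)
        (by rw [zero_add, rho_one]; norm_num)
  | coe p =>
    obtain ⟨n, k⟩ := p
    rw [six_h_iso] at h1
    simp only at h1
    refine (rel_perm i 0 (((n, k) : J) : OnePoint J) h0 h1).trans
      ((rel_iso 0 n 0 k h0 h1).trans ?_)
    obtain ⟨f, -, hf⟩ := exists_shift (m := m) (-k)
    have hr : Rel ((six m).pt (0, ((0, k) : J)) y)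
        ((six m).pt (0, ((0, 0) : J)) (proj (-k) y)) := by
      refine ⟨f, ?_⟩
      rw [hf 0 0 k y h0 h1, add_neg_cancel]
    refine hr.trans ?_
    rcases h1.lt_or_eq with h1' | h1'
    · rw [cls_3 i (n, k) h0' h1']
      have e1 : 0 < proj (-k) y := by
        have := proj_mono (-k) ⟨le_rfl, zero_le_one⟩ ⟨h0, h1.trans (rho_lt_one k).le⟩ h0'
        rwa [proj_zero] at this
      have e2 : proj (-k) y < rho 0 := by
        have := proj_mono (-k) ⟨h0, h1.trans (rho_lt_one k).le⟩
          ⟨(rho_pos k).le, (rho_lt_one k).le⟩ h1'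
        rwa [proj_rho, add_neg_cancel] at this
      exact rel_blade 0 (0, 0) e1 e2 (by norm_num) (by simp only [rho_zero]; norm_num)
    · rw [h1', cls_2 i (n, k), proj_rho, add_neg_cancel]
      exact Rel.refl _

theorem homeo_o {n : ℕ} (f : (six m).F ≃ₜ (six n).F) : f (six m).o = (six n).o :=
  (isSmoothFan_six m).1.image_top (isSmoothFan_six n).1 f

theorem rel_iff (p r : (six m).F) : Rel p r ↔ cls (six m).o p = cls (six m).o r := by
  constructor
  · rintro ⟨f, rfl⟩
    have := cls_image (t := (six m).o) (p := p) f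
    rw [homeo_o] at this
    exact this.symm
  · intro h
    have h1 := rel_rep p
    rw [h] at h1
    exact h1.trans (rel_rep r).symm

/-- The fan has exactly six orbits. -/
theorem card_orbits : Nat.card (Quotient (homeoSetoid (six m).F)) = 6 := by
  have hlift : ∀ p r : (six m).F, (homeoSetoid (six m).F) p r →
      cls (six m).o p = cls (six m).o r := fun p r h => (rel_iff p r).1 h
  have hb : Function.Bijective (Quotient.lift (cls (six m).o) hlift) := by
    constructor
    · intro a b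
      induction a using Quotient.inductionOn with
      | _ p =>
        induction b using Quotient.inductionOn with
        | _ r =>
          intro h
          exact Quotient.sound ((rel_iff p r).2 h)
    · intro i
      exact ⟨Quotient.mk _ (rep m i), cls_rep i⟩
  rw [Nat.card_congr (Equiv.ofBijective _ hb), Nat.card_fin]

/-- The main tips. -/
theorem main_tips (p : (six m).F) :
    (IsEndPoint p ∧ Lp p) ↔ p ∈ range (fun i : Fin (m + 1) => (six m).pt (i, ∞) 1) := by
  constructor
  · rintro ⟨h1, h2⟩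
    obtain ⟨⟨i, w⟩, rfl⟩ := (isEndPoint_six m p).1 h1
    cases w with
    | infty => exact ⟨i, rfl⟩
    | coe p => exact absurd h2 (notL_iso i p (rho_pos _) le_rfl)
  · rintro ⟨i, rfl⟩
    exact ⟨six_tip_isEndPoint (i, ∞), L_main_tip i⟩

theorem ncard_main_tips (m : ℕ) : {p : (six m).F | IsEndPoint p ∧ Lp p}.ncard = m + 1 := by
  have h : {p : (six m).F | IsEndPoint p ∧ Lp p} =
      (fun i : Fin (m + 1) => (six m).pt (i, ∞) 1) '' univ := by
    rw [image_univ]
    ext p
    exact main_tips p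
  rw [h, ncard_image_of_injective, ncard_univ, Nat.card_fin]
  intro i j hij
  obtain ⟨-, h1 | h1⟩ := (six m).pt_eq_pt zero_le_one le_rfl zero_le_one le_rfl hij
  · exact absurd h1 one_ne_zero
  · exact congrArg Prod.fst h1

theorem eq_of_homeo {m n : ℕ} (f : (six m).F ≃ₜ (six n).F) : m = n := by
  have h : f '' {p : (six m).F | IsEndPoint p ∧ Lp p} = {p : (six n).F | IsEndPoint p ∧ Lp p} := by
    ext r
    constructor
    · rintro ⟨p, ⟨h1, h2⟩, rfl⟩
      exact ⟨h1.image f, h2.image f⟩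
    · rintro ⟨h1, h2⟩
      exact ⟨f.symm r, ⟨h1.image f.symm, h2.image f.symm⟩, f.apply_symm_apply r⟩
  have h1 := ncard_image_of_injective {p : (six m).F | IsEndPoint p ∧ Lp p} f.injective
  rw [h, ncard_main_tips, ncard_main_tips] at h1
  omega

end Q173Fan
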