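import Pool.Agent.Q173.FanBasic

/-!
# The plane sets `D.F` are smooth fans
-/

set_option linter.unusedSectionVars false

namespace Q173Fan

open Set Topology Filter

namespace FanData

variable {Z : Type*} [TopologicalSpace Z] (D : FanData Z) [Nonempty Z]

/-- Scaling a point of the fan towards the top. -/
def scale (p : D.F) (t : unitInterval) : D.F := ⟨(t : ℝ) • (p : ℝ × ℝ), by
  obtain ⟨_, ⟨z, y⟩, ⟨h0, h1⟩, rfl⟩ := p
  simp only at h0 h1
  refine ⟨(z, t * y), ⟨mul_nonneg t.2.1 h0, (mul_le_of_le_one_left h0 t.2.2).trans h1⟩, ?_⟩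
  simp [q, mul_assoc]⟩

theorem scale_cont (p : D.F) : Continuous (D.scale p) :=
  Continuous.subtype_mk (continuous_subtype_val.smul continuous_const) _

theorem scale_pt {z : Z} {y : ℝ} (h0 : 0 ≤ y) (h1 : y ≤ D.h z) (t : unitInterval) :
    D.scale (D.pt z y) t = D.pt z (t * y) := by
  apply Subtype.ext
  rw [D.pt_val (mul_nonneg t.2.1 h0) ((mul_le_of_le_one_left h0 t.2.2).trans h1)]
  show (t : ℝ) • (D.pt z y : ℝ × ℝ) = _
  rw [D.pt_val h0 h1]
  simp [mul_assoc]

theorem scale_zero (p : D.F) : D.scale p 0 = D.o := by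
  apply Subtype.ext
  rw [D.o_val]
  show ((0 : unitInterval) : ℝ) • (p : ℝ × ℝ) = _
  rw [Set.Icc.coe_zero, zero_smul]
  rfl

theorem scale_one (p : D.F) : D.scale p 1 = p := by
  apply Subtype.ext
  show ((1 : unitInterval) : ℝ) • (p : ℝ × ℝ) = _
  simp

theorem ht_scale (p : D.F) (t : unitInterval) : D.ht (D.scale p t) = t * D.ht p := rfl

/-- The segment from the top to `p`. -/
def seg (p : D.F) : Set D.F := range (D.scale p)

theorem o_mem_seg (p : D.F) : D.o ∈ D.seg p := ⟨0, D.scale_zero p⟩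

theorem mem_seg (p : D.F) : p ∈ D.seg p := ⟨1, D.scale_one p⟩

theorem seg_isConnected (p : D.F) : IsConnected (D.seg p) := isConnected_range (D.scale_cont p)

theorem seg_isCompact (p : D.F) : IsCompact (D.seg p) := isCompact_range (D.scale_cont p)

theorem mem_seg_pt {z : Z} {y : ℝ} (h0 : 0 ≤ y) (h1 : y ≤ D.h z) {p : D.F} :
    p ∈ D.seg (D.pt z y) ↔ ∃ s, 0 ≤ s ∧ s ≤ y ∧ p = D.pt z s := by
  constructor
  · rintro ⟨t, rfl⟩
    exact ⟨t * y, mul_nonneg t.2.1 h0, mul_le_of_le_one_left h0 t.2.2, D.scale_pt h0 h1 t⟩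
  · rintro ⟨s, hs0, hs1, rfl⟩
    rcases h0.lt_or_eq with hy | hy
    · refine ⟨⟨s / y, div_nonneg hs0 h0, div_le_one_of_le₀ hs1 h0⟩, ?_⟩
      rw [D.scale_pt h0 h1]
      congr 1
      simp only
      field_simp
    · subst hy
      have : s = 0 := le_antisymm hs1 hs0
      subst this
      exact D.mem_seg _

theorem seg_o : D.seg D.o = {D.o} := by
  ext p
  constructor
  · rintro ⟨t, rfl⟩
    rw [mem_singleton_iff, D.eq_o_iff, D.ht_scale, D.ht_o, mul_zero]
  · rintro rfl
    exact D.mem_seg _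

theorem seg_arc {p : D.F} (hp : p ≠ D.o) : IsArcBetween (D.seg p) D.o p := by
  have h := isArcBetween_of_injective (D.scale_cont p) (by
    intro s t hst
    have h1 := congrArg D.ht hst
    rw [D.ht_scale, D.ht_scale] at h1
    have h2 : D.ht p ≠ 0 := fun h => hp (D.eq_o_iff.2 h)
    exact Subtype.ext (mul_right_cancel₀ h2 h1))
  rwa [D.scale_zero, D.scale_one] at h

instance : ConnectedSpace D.F := by
  have : IsConnected (univ : Set D.F) := by
    refine ⟨⟨D.o, trivial⟩, ?_⟩
    refine isPreconnected_of_forall D.o ?_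
    intro p _
    exact ⟨D.seg p, subset_univ _, D.o_mem_seg p, D.mem_seg p, (D.seg_isConnected p).2⟩
  exact connectedSpace_iff_univ.2 this

variable [CompactSpace Z] [T2Space Z] [TotallyDisconnectedSpace Z]

theorem seg_subset {A : Set D.F} (hA : IsPreconnected A) (hcl : IsClosed A) (ho : D.o ∈ A)
    {p : D.F} (hp : p ∈ A) : D.seg p ⊆ A := by
  obtain ⟨z, y, h0, h1, rfl⟩ := D.exists_pt p
  intro r hr
  obtain ⟨s, hs0, hs1, rfl⟩ := (D.mem_seg_pt h0 h1).1 hr
  exact D.star hA hcl ho h1 hs0 hs1 hp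

theorem arc_eq_seg {A : Set D.F} {p : D.F} (h : IsArcOrPoint A D.o p) : A = D.seg p := by
  rcases h with h | ⟨h, h'⟩
  · have h1 : D.seg p ⊆ A :=
      D.seg_subset h.isConnected.2 h.isCompact.isClosed h.left_mem h.right_mem
    exact (h.eq_of_subset (D.seg_isConnected p).2 h1 (D.o_mem_seg p) (D.mem_seg p)).symm
  · rw [h', ← h, D.seg_o]

omit [CompactSpace Z] [T2Space Z] [TotallyDisconnectedSpace Z] in
theorem hausdorffDist_seg (p r : D.F) : Metric.hausdorffDist (D.seg p) (D.seg r) ≤ dist p r := by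
  have key : ∀ (a b : D.F) (t : unitInterval), dist (D.scale a t) (D.scale b t) ≤ dist a b := by
    intro a b t
    show dist ((t : ℝ) • (a : ℝ × ℝ)) ((t : ℝ) • (b : ℝ × ℝ)) ≤ dist (a : ℝ × ℝ) (b : ℝ × ℝ)
    rw [dist_smul₀, Real.norm_of_nonneg t.2.1]
    exact mul_le_of_le_one_left dist_nonneg t.2.2
  refine Metric.hausdorffDist_le_of_mem_dist dist_nonneg ?_ ?_
  · rintro _ ⟨t, rfl⟩
    exact ⟨D.scale r t, ⟨t, rfl⟩, key p r t⟩
  · rintro _ ⟨t, rfl⟩
    refine ⟨D.scale p t, ⟨t, rfl⟩, ?_⟩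
    rw [dist_comm p r]
    exact key r p t

theorem smooth_conv (x : ℕ → D.F) (y : D.F) (A : ℕ → Set D.F) (B : Set D.F)
    (hx : Tendsto x atTop (𝓝 y)) (hA : ∀ n, IsArcOrPoint (A n) D.o (x n))
    (hB : IsArcOrPoint B D.o y) :
    Tendsto (fun n => Metric.hausdorffDist (A n) B) atTop (𝓝 0) := by
  have h1 : Tendsto (fun n => dist (x n) y) atTop (𝓝 0) := tendsto_iff_dist_tendsto_zero.1 hx
  refine squeeze_zero (fun n => Metric.hausdorffDist_nonneg) (fun n => ?_) h1
  rw [D.arc_eq_seg (hA n), D.arc_eq_seg hB]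
  exact D.hausdorffDist_seg _ _

/-- A connected set missing the top, through two points of the blade `z`, contains everything in
between. -/
theorem between {A : Set D.F} (hA : IsPreconnected A) (ho : D.o ∉ A) {z : Z} {y y' s : ℝ}
    (h0 : 0 ≤ y) (h1' : y' ≤ D.h z) (hs : y ≤ s) (hs' : s ≤ y')
    (hz : D.pt z y ∈ A) (hz' : D.pt z y' ∈ A) : D.pt z s ∈ A := by
  have h1 : IsPreconnected (D.ht '' A) := hA.image _ D.ht_cont.continuousOn
  have h2 : s ∈ D.ht '' A := by
    refine h1.ordConnected.out (x := y) ⟨_, hz, D.ht_pt h0 ((hs.trans hs').trans h1')⟩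
      (y := y') ⟨_, hz', D.ht_pt (h0.trans (hs.trans hs')) h1'⟩ ⟨hs, hs'⟩
  obtain ⟨p, hp, hps⟩ := h2
  obtain ⟨w, t, ht0, ht1, rfl⟩ := D.exists_pt p
  rw [D.ht_pt ht0 ht1] at hps
  subst hps
  have := D.same_blade hA ho h0 ((hs.trans hs').trans h1') ht0 ht1 hz hp
  rw [this]; exact hp

theorem hunic : HereditarilyUnicoherent D.F := by
  rintro A B ⟨hAc, -, hA⟩ ⟨hBc, -, hB⟩
  have hAcl := hAc.isClosed
  have hBcl := hBc.isClosed
  by_cases hoA : D.o ∈ A ∧ D.o ∈ B
  · refine isPreconnected_of_forall D.o ?_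
    intro p hp
    exact ⟨D.seg p, subset_inter (D.seg_subset hA hAcl hoA.1 hp.1)
      (D.seg_subset hB hBcl hoA.2 hp.2), D.o_mem_seg p, D.mem_seg p, (D.seg_isConnected p).2⟩
  · -- every pair of points of `A ∩ B` lies in one blade
    have key : ∀ (C : Set D.F), IsPreconnected C → IsClosed C → ∀ {z : Z} {y y' s : ℝ}, 0 ≤ y →
        y' ≤ D.h z → y ≤ s → s ≤ y' → D.pt z y ∈ C → D.pt z y' ∈ C → D.pt z s ∈ C := by
      intro C hC hCc z y y' s h0 h1' hs hs' hz hz'
      by_cases hoC : D.o ∈ C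
      · exact D.star hC hCc hoC h1' (h0.trans hs) hs' hz'
      · exact D.between hC hoC h0 h1' hs hs' hz hz'
    refine isPreconnected_of_forall_pair ?_
    intro p hp r hr
    obtain ⟨z, y, h0, h1, rfl⟩ := D.exists_pt p
    obtain ⟨z', y', h0', h1', rfl⟩ := D.exists_pt r
    have hzz : z = z' := by
      by_cases hoA' : D.o ∈ A
      · have hoB : D.o ∉ B := fun h => hoA ⟨hoA', h⟩
        exact D.same_blade hB hoB h0 h1 h0' h1' hp.2 hr.2
      · exact D.same_blade hA hoA' h0 h1 h0' h1' hp.1 hr.1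
    subst hzz
    rcases le_total y y' with hyy | hyy
    · refine ⟨D.pt z '' Icc y y', ?_, ⟨y, ⟨le_rfl, hyy⟩, rfl⟩, ⟨y', ⟨hyy, le_rfl⟩, rfl⟩,
        isPreconnected_Icc.image _ (D.pt_cont z).continuousOn⟩
      rintro _ ⟨s, ⟨hs, hs'⟩, rfl⟩
      exact ⟨key A hA hAcl h0 h1' hs hs' hp.1 hr.1, key B hB hBcl h0 h1' hs hs' hp.2 hr.2⟩
    · refine ⟨D.pt z '' Icc y' y, ?_, ⟨y, ⟨hyy, le_rfl⟩, rfl⟩, ⟨y', ⟨le_rfl, hyy⟩, rfl⟩,
        isPreconnected_Icc.image _ (D.pt_cont z).continuousOn⟩
      rintro _ ⟨s, ⟨hs, hs'⟩, rfl⟩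
      exact ⟨key A hA hAcl h0' h1 hs hs' hr.1 hp.1, key B hB hBcl h0' h1 hs hs' hr.2 hp.2⟩

omit [CompactSpace Z] [T2Space Z] [TotallyDisconnectedSpace Z] in
theorem arcwise : ArcwiseConnected D.F := by
  intro a b hab
  by_cases ha : a = D.o
  · subst ha
    exact ⟨_, D.seg_arc hab.symm⟩
  by_cases hb : b = D.o
  · subst hb
    exact ⟨_, (D.seg_arc hab).symm⟩
  obtain ⟨z, y, h0, h1, rfl⟩ := D.exists_pt a
  obtain ⟨z', y', h0', h1', rfl⟩ := D.exists_pt b
  rw [D.pt_eq_o_iff h0 h1] at ha
  rw [D.pt_eq_o_iff h0' h1'] at hb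
  have hy : 0 < y := lt_of_le_of_ne h0 (Ne.symm ha)
  have hy' : 0 < y' := lt_of_le_of_ne h0' (Ne.symm hb)
  by_cases hz : z = z'
  · subst hz
    have hyy : y ≠ y' := fun h => hab (by rw [h])
    set γ : unitInterval → D.F := fun t => D.pt z ((1 - t) * y + t * y') with hγ
    have hval : ∀ t : unitInterval, 0 ≤ (1 - (t:ℝ)) * y + t * y' ∧
        (1 - (t:ℝ)) * y + t * y' ≤ D.h z := by
      intro t
      have ht0 := t.2.1
      have ht1 := t.2.2
      constructor
      · have : 0 ≤ (1 - (t:ℝ)) := by linarith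
        positivity
      · nlinarith
    have hc : Continuous γ := by
      refine (D.pt_cont z).comp ?_
      fun_prop
    have hi : Function.Injective γ := by
      intro s t hst
      have h2 := (D.pt_eq_pt (hval s).1 (hval s).2 (hval t).1 (hval t).2 hst).1
      apply Subtype.ext
      have h3 : ((s : ℝ) - t) * (y' - y) = 0 := by linarith
      rcases mul_eq_zero.1 h3 with h | h
      · linarith
      · exact absurd (by linarith) hyy
    have h := isArcBetween_of_injective hc hi
    have e0 : γ 0 = D.pt z y := by simp [hγ]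
    have e1 : γ 1 = D.pt z y' := by simp [hγ]
    rw [e0, e1] at h
    exact ⟨_, h⟩
  · -- two different blades
    set u : unitInterval → ℝ := fun t => max 0 (1 - 2 * (t:ℝ)) with hu
    set v : unitInterval → ℝ := fun t => max 0 (2 * (t:ℝ) - 1) with hv
    have hu0 : ∀ t, 0 ≤ u t := fun t => le_max_left _ _
    have hv0 : ∀ t, 0 ≤ v t := fun t => le_max_left _ _
    have hu1 : ∀ t, u t ≤ 1 := fun t => max_le zero_le_one (by have := t.2.1; linarith)
    have hv1 : ∀ t, v t ≤ 1 := fun t => max_le zero_le_one (by have := t.2.2; linarith)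
    have huv : ∀ t, u t = 0 ∨ v t = 0 := by
      intro t
      rcases le_total (2 * (t:ℝ)) 1 with h | h
      · right; exact max_eq_left (by linarith)
      · left; exact max_eq_left (by linarith)
    have hmem : ∀ t : unitInterval,
        (u t • (D.pt z y : ℝ × ℝ) + v t • (D.pt z' y' : ℝ × ℝ)) ∈ D.F := by
      intro t
      rcases huv t with h | h
      · rw [h, zero_smul, zero_add]
        exact (D.scale (D.pt z' y') ⟨v t, hv0 t, hv1 t⟩).2
      · rw [h, zero_smul, add_zero]
        exact (D.scale (D.pt z y) ⟨u t, hu0 t, hu1 t⟩).2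
    set γ : unitInterval → D.F := fun t => ⟨_, hmem t⟩ with hγ
    have hc : Continuous γ := by
      refine Continuous.subtype_mk ?_ _
      have hcu : Continuous u := by simp only [hu]; fun_prop
      have hcv : Continuous v := by simp only [hv]; fun_prop
      exact (hcu.smul continuous_const).add (hcv.smul continuous_const)
    have hγu : ∀ t, v t = 0 → γ t = D.pt z (u t * y) := by
      intro t h
      apply Subtype.ext
      rw [D.pt_val (mul_nonneg (hu0 t) h0) ((mul_le_of_le_one_left h0 (hu1 t)).trans h1)]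
      simp only [hγ, h, zero_smul, add_zero]
      rw [D.pt_val h0 h1]
      simp [mul_assoc]
    have hγv : ∀ t, u t = 0 → γ t = D.pt z' (v t * y') := by
      intro t h
      apply Subtype.ext
      rw [D.pt_val (mul_nonneg (hv0 t) h0') ((mul_le_of_le_one_left h0' (hv1 t)).trans h1')]
      simp only [hγ, h, zero_smul, zero_add]
      rw [D.pt_val h0' h1']
      simp [mul_assoc]
    have hut : ∀ t, v t = 0 → u t = 1 - 2 * (t:ℝ) := by
      intro t h
      have h2 : 2 * (t:ℝ) - 1 ≤ 0 := by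
        have := le_max_right (0:ℝ) (2 * (t:ℝ) - 1)
        rw [← h]; exact this
      exact max_eq_right (by linarith)
    have hvt : ∀ t, u t = 0 → v t = 2 * (t:ℝ) - 1 := by
      intro t h
      have h2 : 1 - 2 * (t:ℝ) ≤ 0 := by
        have := le_max_right (0:ℝ) (1 - 2 * (t:ℝ))
        rw [← h]; exact this
      exact max_eq_right (by linarith)
    have hi : Function.Injective γ := by
      intro s t hst
      apply Subtype.ext
      rcases huv s with hs | hs <;> rcases huv t with ht | ht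
      · rw [hγv s hs, hγv t ht] at hst
        have h2 := (D.pt_eq_pt (mul_nonneg (hv0 s) h0')
          ((mul_le_of_le_one_left h0' (hv1 s)).trans h1') (mul_nonneg (hv0 t) h0')
          ((mul_le_of_le_one_left h0' (hv1 t)).trans h1') hst).1
        have h3 := mul_right_cancel₀ hy'.ne' h2
        rw [hvt s hs, hvt t ht] at h3
        linarith
      · rw [hγv s hs, hγu t ht] at hst
        obtain ⟨h2, h3 | h3⟩ := D.pt_eq_pt (mul_nonneg (hv0 s) h0')
          ((mul_le_of_le_one_left h0' (hv1 s)).trans h1') (mul_nonneg (hu0 t) h0)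
          ((mul_le_of_le_one_left h0 (hu1 t)).trans h1) hst
        · have h4 : v s = 0 := (mul_eq_zero.1 h3).resolve_right hy'.ne'
          have h5 : u t = 0 := by
            rw [h3] at h2
            exact (mul_eq_zero.1 h2.symm).resolve_right hy.ne'
          have h6 := hvt s hs
          have h7 := hut t ht
          rw [h4] at h6
          rw [h5] at h7
          linarith
        · exact absurd h3.symm hz
      · rw [hγu s hs, hγv t ht] at hst
        obtain ⟨h2, h3 | h3⟩ := D.pt_eq_pt (mul_nonneg (hu0 s) h0)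
          ((mul_le_of_le_one_left h0 (hu1 s)).trans h1) (mul_nonneg (hv0 t) h0')
          ((mul_le_of_le_one_left h0' (hv1 t)).trans h1') hst
        · have h4 : u s = 0 := (mul_eq_zero.1 h3).resolve_right hy.ne'
          have h5 : v t = 0 := by
            rw [h3] at h2
            exact (mul_eq_zero.1 h2.symm).resolve_right hy'.ne'
          have h6 := hut s hs
          have h7 := hvt t ht
          rw [h4] at h6
          rw [h5] at h7
          linarith
        · exact absurd h3 hz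
      · rw [hγu s hs, hγu t ht] at hst
        have h2 := (D.pt_eq_pt (mul_nonneg (hu0 s) h0)
          ((mul_le_of_le_one_left h0 (hu1 s)).trans h1) (mul_nonneg (hu0 t) h0)
          ((mul_le_of_le_one_left h0 (hu1 t)).trans h1) hst).1
        have h3 := mul_right_cancel₀ hy.ne' h2
        rw [hut s hs, hut t ht] at h3
        linarith
    have h := isArcBetween_of_injective hc hi
    have e0 : γ 0 = D.pt z y := by
      apply Subtype.ext
      simp [hγ, hu, hv]
    have e1 : γ 1 = D.pt z' y' := by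
      apply Subtype.ext
      have : (2:ℝ) - 1 = 1 := by norm_num
      have h' : (1:ℝ) - 2 ≤ 0 := by norm_num
      simp [hγ, hu, hv, this, h']
    rw [e0, e1] at h
    exact ⟨_, h⟩

theorem isDendroid : IsDendroid D.F :=
  ⟨⟨inferInstance, inferInstance⟩, D.arcwise, D.hunic⟩

end FanData

end Q173Fan
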