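import Pool.Agent.Q173.FanHomeo

/-!
# Tree fans

Directions are pairs `(b, d)` with `b : Bool` and `d : ℕ → Bool`; the height of the blade in
direction `(b,d)` is `2 ^ (- ∑ a b i)` over the `i` with `d i = true` (and `0` if there are
infinitely many such `i`).
-/

set_option linter.unusedSectionVars false

namespace Q173Fan

open Set Topology Filter

/-- The space of directions. -/
abbrev TZ : Type := Bool × (ℕ → Bool)

/-- The Cantor set coordinate. -/
noncomputable def cx (d : ℕ → Bool) : ℝ := (cantorSetHomeomorphNatToBool.symm d : ℝ)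

theorem cx_cont : Continuous cx :=
  continuous_subtype_val.comp cantorSetHomeomorphNatToBool.symm.continuous

theorem cx_inj : Function.Injective cx :=
  Subtype.val_injective.comp cantorSetHomeomorphNatToBool.symm.injective

theorem cx_mem (d : ℕ → Bool) : cx d ∈ Icc (0:ℝ) 1 :=
  cantorSet_subset_unitInterval (cantorSetHomeomorphNatToBool.symm d).2

/-- The slope of a direction. -/
noncomputable def tx (z : TZ) : ℝ := (if z.1 then 2 else 0) + cx z.2

theorem tx_cont : Continuous tx := by
  refine Continuous.add ?_ (cx_cont.comp continuous_snd)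
  exact (continuous_of_discreteTopology (f := fun b : Bool => if b then (2:ℝ) else 0)).comp
    continuous_fst

theorem tx_inj : Function.Injective tx := by
  rintro ⟨b, d⟩ ⟨b', d'⟩ h
  have h1 := cx_mem d
  have h2 := cx_mem d'
  have hb : b = b' := by
    cases b <;> cases b' <;> simp [tx] at h ⊢ <;> linarith [h1.1, h1.2, h2.1, h2.2]
  subst hb
  simp only [tx, add_right_inj] at h
  rw [cx_inj h]

theorem tx_lt (d : ℕ → Bool) : tx (false, d) ≤ 1 := by
  have h1 := cx_mem d
  simp [tx, h1.2]

theorem tx_ge (d : ℕ → Bool) : 2 ≤ tx (true, d) := by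
  have h1 := cx_mem d
  simp [tx, h1.1]

/-- Partial weight. -/
def wt (a : Bool → ℕ → ℕ) (z : TZ) (n : ℕ) : ℕ :=
  ∑ i ∈ Finset.range n, if z.2 i then a z.1 i else 0

theorem wt_succ (a : Bool → ℕ → ℕ) (z : TZ) (n : ℕ) :
    wt a z (n + 1) = wt a z n + if z.2 n then a z.1 n else 0 := Finset.sum_range_succ _ _

theorem wt_mono (a : Bool → ℕ → ℕ) (z : TZ) : Monotone (wt a z) :=
  monotone_nat_of_le_succ fun n => by rw [wt_succ]; omega

theorem wt_cont (a : Bool → ℕ → ℕ) (n : ℕ) : Continuous fun z : TZ => wt a z n := by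
  unfold wt
  refine continuous_finsetSum _ fun i _ => ?_
  have h1 : Continuous fun z : TZ => ((z.1, z.2 i) : Bool × Bool) :=
    continuous_fst.prodMk ((continuous_apply i).comp continuous_snd)
  exact (continuous_of_discreteTopology
    (f := fun p : Bool × Bool => if p.2 then a p.1 i else 0)).comp h1

/-- The height function. -/
noncomputable def th (a : Bool → ℕ → ℕ) (z : TZ) : ℝ := ⨅ n, (1 / 2 : ℝ) ^ wt a z n

theorem th_bdd (a : Bool → ℕ → ℕ) (z : TZ) :
    BddBelow (range fun n => (1 / 2 : ℝ) ^ wt a z n) :=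
  ⟨0, by rintro _ ⟨n, rfl⟩; positivity⟩

theorem th_le_pow (a : Bool → ℕ → ℕ) (z : TZ) (n : ℕ) : th a z ≤ (1 / 2 : ℝ) ^ wt a z n :=
  ciInf_le (th_bdd a z) n

theorem th_nonneg (a : Bool → ℕ → ℕ) (z : TZ) : 0 ≤ th a z :=
  le_ciInf fun n => by positivity

/-- The fan data. -/
noncomputable def tree (a : Bool → ℕ → ℕ) : FanData TZ where
  x := tx
  h := th a
  x_cont := tx_cont
  x_inj := tx_inj
  h_nonneg := th_nonneg a
  h_le z := by
    have := th_le_pow a z 0
    simpa [wt] using this
  usc := by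
    refine upperSemicontinuous_ciInf (th_bdd a) fun n => ?_
    refine Continuous.upperSemicontinuous ?_
    exact (continuous_of_discreteTopology (f := fun k : ℕ => (1 / 2 : ℝ) ^ k)).comp (wt_cont a n)

/-- `z` has no `true` digit from `N` on. -/
def Supp (z : TZ) (N : ℕ) : Prop := ∀ i, N ≤ i → z.2 i = false

theorem Supp.mono {z : TZ} {N M : ℕ} (h : Supp z N) (hNM : N ≤ M) : Supp z M :=
  fun i hi => h i (hNM.trans hi)

theorem wt_eq_of_supp (a : Bool → ℕ → ℕ) {z : TZ} {N : ℕ} (h : Supp z N) {n : ℕ} (hn : N ≤ n) :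
    wt a z n = wt a z N := by
  induction n, hn using Nat.le_induction with
  | base => rfl
  | succ n hn ih => rw [wt_succ, ih, h n hn]; simp

theorem th_eq_of_supp (a : Bool → ℕ → ℕ) {z : TZ} {N : ℕ} (h : Supp z N) :
    th a z = (1 / 2 : ℝ) ^ wt a z N := by
  refine le_antisymm (th_le_pow a z N) (le_ciInf fun n => ?_)
  rcases le_total N n with hn | hn
  · rw [wt_eq_of_supp a h hn]
  · exact pow_le_pow_of_le_one (by norm_num) (by norm_num) (wt_mono a z hn)

theorem th_pos_of_supp (a : Bool → ℕ → ℕ) {z : TZ} {N : ℕ} (h : Supp z N) : 0 < th a z := by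
  rw [th_eq_of_supp a h]; positivity

theorem exists_supp {a : Bool → ℕ → ℕ} (ha : ∀ b i, 1 ≤ a b i) {z : TZ} (h : 0 < th a z) :
    ∃ N, Supp z N := by
  by_contra hcon
  have h1 : ∀ k : ℕ, ∃ n, k ≤ wt a z n := by
    intro k
    induction k with
    | zero => exact ⟨0, Nat.zero_le _⟩
    | succ k ih =>
      obtain ⟨n, hn⟩ := ih
      have h2 : ¬ Supp z n := fun h => hcon ⟨n, h⟩
      unfold Supp at h2
      push Not at h2
      obtain ⟨i, hi, hzi⟩ := h2
      refine ⟨i + 1, ?_⟩
      have hzi' : z.2 i = true := by simpa using hzi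
      rw [wt_succ, hzi']
      have := wt_mono a z hi
      have := ha z.1 i
      simp only [if_true]
      omega
  obtain ⟨k, hk⟩ := exists_pow_lt_of_lt_one h (show (1 / 2 : ℝ) < 1 by norm_num)
  obtain ⟨n, hn⟩ := h1 k
  have h3 := th_le_pow a z n
  have h4 : (1 / 2 : ℝ) ^ wt a z n ≤ (1 / 2 : ℝ) ^ k :=
    pow_le_pow_of_le_one (by norm_num) (by norm_num) hn
  linarith

/-- Replace the digits of `z` before `N` by those of `u`, and the component too. -/
def splice (N : ℕ) (u z : TZ) : TZ := (u.1, fun i => if i < N then u.2 i else z.2 i)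

theorem wt_splice (a : Bool → ℕ → ℕ) (N : ℕ) (u z : TZ) {n : ℕ} (hn : N ≤ n)
    (hab : ∀ i, a u.1 i = a z.1 i) :
    wt a (splice N u z) n + wt a z N = wt a z n + wt a u N := by
  induction n, hn using Nat.le_induction with
  | base =>
    have : wt a (splice N u z) N = wt a u N := by
      unfold wt
      refine Finset.sum_congr rfl fun i hi => ?_
      simp [splice, Finset.mem_range.1 hi]
    rw [this, add_comm]
  | succ n hn ih =>
    rw [wt_succ, wt_succ a z]
    have h1 : (splice N u z).2 n = z.2 n := by simp [splice, not_lt.2 hn]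
    have h2 : (splice N u z).1 = u.1 := rfl
    rw [h1, h2, hab]
    omega

theorem th_splice (a : Bool → ℕ → ℕ) (N : ℕ) (u z : TZ) (hab : ∀ i, a u.1 i = a z.1 i) :
    th a (splice N u z) * (1 / 2 : ℝ) ^ wt a z N = th a z * (1 / 2 : ℝ) ^ wt a u N := by
  have key : ∀ (v : TZ) (k : ℕ), th a v * (1 / 2 : ℝ) ^ k =
      ⨅ n, (1 / 2 : ℝ) ^ (wt a v (N + n) + k) := by
    intro v k
    have h1 : th a v = ⨅ n, (1 / 2 : ℝ) ^ wt a v (N + n) := by
      refine le_antisymm (le_ciInf fun n => th_le_pow a v _) ?_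
      refine le_ciInf fun n => ?_
      refine (ciInf_le ⟨0, by rintro _ ⟨n, rfl⟩; positivity⟩ n).trans ?_
      exact pow_le_pow_of_le_one (by norm_num) (by norm_num) (wt_mono a v (by omega))
    rw [h1, Real.iInf_mul_of_nonneg (by positivity)]
    simp_rw [pow_add]
  rw [key, key]
  congr 1
  funext n
  rw [wt_splice a N u z (by omega) hab]

end Q173Fan
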