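import Pool.Agent.Q173.FanTree

/-!
# Tree fans: homogeneity and the EPG property
-/

set_option linter.unusedSectionVars false

namespace Q173Fan

open Set Topology Filter

/-- `w` is in the component of `u` and its first `N` digits are those of `u`. -/
def Agree (N : ℕ) (u w : TZ) : Prop := w.1 = u.1 ∧ ∀ i, i < N → w.2 i = u.2 i

theorem Agree.refl (N : ℕ) (u : TZ) : Agree N u u := ⟨rfl, fun _ _ => rfl⟩

theorem isClopen_agree (N : ℕ) (u : TZ) : IsClopen {w | Agree N u w} := by
  have h : {w | Agree N u w} =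
      (fun w : TZ => ((w.1, fun i : Fin N => w.2 i) : Bool × (Fin N → Bool))) ⁻¹'
        {(u.1, fun i : Fin N => u.2 i)} := by
    ext w
    simp only [Agree, mem_setOf_eq, mem_preimage, mem_singleton_iff, Prod.mk.injEq]
    refine and_congr_right fun _ => ⟨fun h => funext fun i => h i i.2, fun h i hi => ?_⟩
    exact congrFun h ⟨i, hi⟩
  rw [h]
  refine (isClopen_discrete _).preimage ?_
  exact continuous_fst.prodMk
    (continuous_pi fun i => (continuous_apply _).comp continuous_snd)

theorem splice_cont (N : ℕ) (u : TZ) : Continuous (splice N u) := by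
  refine continuous_const.prodMk (continuous_pi fun i => ?_)
  by_cases h : i < N
  · simp only [h, if_true]; exact continuous_const
  · simp only [h, if_false]; exact (continuous_apply i).comp continuous_snd

theorem agree_splice (N : ℕ) (u w : TZ) : Agree N u (splice N u w) :=
  ⟨rfl, fun i hi => by simp [splice, hi]⟩

theorem splice_splice {N : ℕ} {u v w : TZ} (h : Agree N v w) : splice N v (splice N u w) = w := by
  refine Prod.ext h.1.symm (funext fun i => ?_)
  by_cases hi : i < N
  · simp [splice, hi, h.2 i hi]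
  · simp [splice, hi]

theorem splice_self {N : ℕ} {u w : TZ} (h : Agree N u w) : splice N u w = w := by
  refine Prod.ext h.1.symm (funext fun i => ?_)
  by_cases hi : i < N
  · simp [splice, hi, h.2 i hi]
  · simp [splice, hi]

theorem agree_trans {N : ℕ} {u v w : TZ} (h : Agree N u w) (h' : Agree N v w) : Agree N u v :=
  ⟨h'.1.symm.trans h.1, fun i hi => (h'.2 i hi).symm.trans (h.2 i hi)⟩

theorem splice_congr {N : ℕ} {u v : TZ} (h : Agree N u v) (w : TZ) :
    splice N u w = splice N v w := by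
  refine Prod.ext h.1.symm (funext fun i => ?_)
  by_cases hi : i < N
  · simp [splice, hi, h.2 i hi]
  · simp [splice, hi]

open Classical in
/-- Exchange the initial segments of `u` and `v`. -/
noncomputable def swapMap (N : ℕ) (u v : TZ) (w : TZ) : TZ :=
  if Agree N u w then splice N v w else if Agree N v w then splice N u w else w

theorem swapMap_cont (N : ℕ) (u v : TZ) : Continuous (swapMap N u v) := by
  classical
  unfold swapMap
  refine Continuous.if (p := fun w => Agree N u w) ?_ (splice_cont N v)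
    (Continuous.if (p := fun w => Agree N v w) ?_ (splice_cont N u) continuous_id)
  · intro w hw
    rw [(isClopen_agree N u).frontier_eq] at hw
    exact absurd hw (notMem_empty _)
  · intro w hw
    rw [(isClopen_agree N v).frontier_eq] at hw
    exact absurd hw (notMem_empty _)

theorem swapMap_swapMap (N : ℕ) (u v w : TZ) : swapMap N u v (swapMap N u v w) = w := by
  classical
  by_cases h1 : Agree N u w
  · have e1 : swapMap N u v w = splice N v w := by simp [swapMap, h1]
    rw [e1]
    by_cases h2 : Agree N u (splice N v w)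
    · have huv : Agree N u v := agree_trans h2 (agree_splice N v w)
      have e2 : splice N v w = w := by
        rw [← splice_congr huv]
        exact splice_self h1
      rw [e2, e1, e2]
    · have e2 : swapMap N u v (splice N v w) = splice N u (splice N v w) := by
        simp [swapMap, h2, agree_splice]
      rw [e2, splice_splice h1]
  · by_cases h2 : Agree N v w
    · have e1 : swapMap N u v w = splice N u w := by simp [swapMap, h1, h2]
      rw [e1]
      have e2 : swapMap N u v (splice N u w) = splice N v (splice N u w) := by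
        simp [swapMap, agree_splice]
      rw [e2, splice_splice h2]
    · have e1 : swapMap N u v w = w := by simp [swapMap, h1, h2]
      rw [e1, e1]

/-- The exchange as a homeomorphism. -/
noncomputable def swapHomeo (N : ℕ) (u v : TZ) : TZ ≃ₜ TZ where
  toFun := swapMap N u v
  invFun := swapMap N u v
  left_inv := swapMap_swapMap N u v
  right_inv := swapMap_swapMap N u v
  continuous_toFun := swapMap_cont N u v
  continuous_invFun := swapMap_cont N u v

theorem wt_agree (a : Bool → ℕ → ℕ) {N : ℕ} {u w : TZ} (h : Agree N u w) :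
    wt a w N = wt a u N := by
  unfold wt
  refine Finset.sum_congr rfl fun i hi => ?_
  rw [h.2 i (Finset.mem_range.1 hi), h.1]

open Classical in
/-- The scaling factor. -/
noncomputable def fac (a : Bool → ℕ → ℕ) (N : ℕ) (u v : TZ) (w : TZ) : ℝ :=
  if Agree N u w then (1 / 2 : ℝ) ^ wt a v N / (1 / 2 : ℝ) ^ wt a u N
  else if Agree N v w then (1 / 2 : ℝ) ^ wt a u N / (1 / 2 : ℝ) ^ wt a v N else 1

theorem fac_pos (a : Bool → ℕ → ℕ) (N : ℕ) (u v w : TZ) : 0 < fac a N u v w := by
  unfold fac
  split_ifs <;> positivity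

theorem fac_cont (a : Bool → ℕ → ℕ) (N : ℕ) (u v : TZ) : Continuous (fac a N u v) := by
  classical
  unfold fac
  refine Continuous.if (p := fun w => Agree N u w) ?_ continuous_const
    (Continuous.if (p := fun w => Agree N v w) ?_ continuous_const continuous_const)
  · intro w hw
    rw [(isClopen_agree N u).frontier_eq] at hw
    exact absurd hw (notMem_empty _)
  · intro w hw
    rw [(isClopen_agree N v).frontier_eq] at hw
    exact absurd hw (notMem_empty _)

theorem th_swapMap (a : Bool → ℕ → ℕ) (N : ℕ) (u v w : TZ) (huv : ∀ i, a u.1 i = a v.1 i) :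
    fac a N u v w * th a w = th a (swapMap N u v w) := by
  classical
  have hp : ∀ k : ℕ, ((1 / 2 : ℝ) ^ k) ≠ 0 := fun k => by positivity
  by_cases h1 : Agree N u w
  · have e1 : swapMap N u v w = splice N v w := by simp [swapMap, h1]
    have e2 : fac a N u v w = (1 / 2 : ℝ) ^ wt a v N / (1 / 2 : ℝ) ^ wt a u N := by
      simp [fac, h1]
    rw [e1, e2]
    have h2 := th_splice a N v w (fun i => by rw [h1.1, huv i])
    rw [wt_agree a h1] at h2
    rw [div_mul_eq_mul_div, div_eq_iff (hp _), h2, mul_comm]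
  · by_cases h2 : Agree N v w
    · have e1 : swapMap N u v w = splice N u w := by simp [swapMap, h1, h2]
      have e2 : fac a N u v w = (1 / 2 : ℝ) ^ wt a u N / (1 / 2 : ℝ) ^ wt a v N := by
        simp [fac, h1, h2]
      rw [e1, e2]
      have h3 := th_splice a N u w (fun i => by rw [h2.1, huv i])
      rw [wt_agree a h2] at h3
      rw [div_mul_eq_mul_div, div_eq_iff (hp _), h3, mul_comm]
    · have e1 : swapMap N u v w = w := by simp [swapMap, h1, h2]
      have e2 : fac a N u v w = 1 := by simp [fac, h1, h2]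
      rw [e1, e2, one_mul]

/-- The direction `(b, 000...)`. -/
def zeroDir (b : Bool) : TZ := (b, fun _ => false)

/-- The direction `(b, 1000...)`. -/
def oneDir (b : Bool) : TZ := (b, fun i => decide (i = 0))

theorem supp_zeroDir (b : Bool) : Supp (zeroDir b) 0 := fun _ _ => rfl

theorem supp_oneDir (b : Bool) : Supp (oneDir b) 1 := fun i hi => by
  simp only [oneDir, decide_eq_false_iff_not]; omega

theorem tree_h (a : Bool → ℕ → ℕ) (z : TZ) : (tree a).h z = th a z := rfl

theorem isSmoothFan_tree (a : Bool → ℕ → ℕ) : IsSmoothFan (tree a).F (tree a).o := by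
  refine (tree a).isSmoothFan (z := zeroDir false) (w := zeroDir true) (u := oneDir false)
    (th_pos_of_supp a (supp_zeroDir _)) (th_pos_of_supp a (supp_zeroDir _))
    (th_pos_of_supp a (supp_oneDir _)) ?_ ?_ ?_
  · intro h
    have := congrArg Prod.fst h
    simp [zeroDir] at this
  · intro h
    have := congrFun (congrArg Prod.snd h) 0
    simp [zeroDir, oneDir] at this
  · intro h
    have := congrArg Prod.fst h
    simp [zeroDir, oneDir] at this

theorem isEndPoint_tree (a : Bool → ℕ → ℕ) (p : (tree a).F) :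
    IsEndPoint p ↔ ∃ z, 0 < (tree a).h z ∧ p = (tree a).pt z ((tree a).h z) := by
  refine (tree a).isEndPoint_iff (z := zeroDir false) (w := zeroDir true)
    (th_pos_of_supp a (supp_zeroDir _)) (th_pos_of_supp a (supp_zeroDir _)) ?_ p
  intro h
  have := congrArg Prod.fst h
  simp [zeroDir] at this

theorem homogeneous_tree {a : Bool → ℕ → ℕ} (ha : ∀ b i, 1 ≤ a b i)
    (hab : ∀ b b' i, a b i = a b' i) : EndPointHomogeneous (tree a).F := by
  intro e e' he he'
  obtain ⟨z, hz, rfl⟩ := (isEndPoint_tree a e).1 he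
  obtain ⟨z', hz', rfl⟩ := (isEndPoint_tree a e').1 he'
  obtain ⟨N, hN⟩ := exists_supp ha hz
  obtain ⟨N', hN'⟩ := exists_supp ha hz'
  set M := max N N' with hM
  have hs := hN.mono (le_max_left N N')
  have hs' := hN'.mono (le_max_right N N')
  have hsc : ∀ w, fac a M z z' w * (tree a).h w = (tree a).h (swapHomeo M z z' w) :=
    fun w => th_swapMap a M z z' w (fun i => hab _ _ i)
  obtain ⟨f, hf⟩ := (tree a).exists_homeo (tree a) (swapHomeo M z z')
    (fun w y => fac a M z z' w * y)
    (((fac_cont a M z z').comp continuous_fst).mul continuous_snd).continuousOn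
    (fun w => mul_zero _)
    (fun w y _ y' _ h => mul_lt_mul_of_pos_left h (fac_pos a M z z' w)) hsc
  refine ⟨f, ?_⟩
  rw [hf z _ ((tree a).h_nonneg z) le_rfl, hsc]
  have : swapHomeo M z z' z = z' := by
    show swapMap M z z' z = z'
    have e1 : swapMap M z z' z = splice M z' z := by simp [swapMap, Agree.refl]
    rw [e1]
    refine Prod.ext rfl (funext fun i => ?_)
    by_cases hi : i < M
    · simp [splice, hi]
    · simp only [splice, hi, if_false]
      rw [hs i (not_lt.1 hi), hs' i (not_lt.1 hi)]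
  rw [this]

/-! ### The set `B ∩ closure (E \ B)` -/

/-- Add the digits in `s`. -/
def addDigits (z : TZ) (s : Finset ℕ) : TZ := (z.1, fun i => z.2 i || decide (i ∈ s))

theorem wt_addDigits (a : Bool → ℕ → ℕ) {z : TZ} {N : ℕ} (hz : Supp z N) {s : Finset ℕ}
    (hs : ∀ i ∈ s, N ≤ i) {n : ℕ} (hn : ∀ i ∈ s, i < n) :
    wt a (addDigits z s) n = wt a z n + ∑ i ∈ s, a z.1 i := by
  have h1 : ∑ i ∈ s, a z.1 i = ∑ i ∈ Finset.range n, if i ∈ s then a z.1 i else 0 := by
    rw [← Finset.sum_filter]
    refine Finset.sum_congr ?_ fun _ _ => rfl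
    ext i
    simp only [Finset.mem_filter, Finset.mem_range]
    exact ⟨fun h => ⟨hn i h, h⟩, fun h => h.2⟩
  rw [h1]
  unfold wt
  rw [← Finset.sum_add_distrib]
  refine Finset.sum_congr rfl fun i _ => ?_
  by_cases hi : i ∈ s
  · have := hz i (hs i hi)
    simp [addDigits, hi, this]
  · simp [addDigits, hi]

theorem th_addDigits (a : Bool → ℕ → ℕ) {z : TZ} {N : ℕ} (hz : Supp z N) {s : Finset ℕ}
    (hs : ∀ i ∈ s, N ≤ i) :
    th a (addDigits z s) = th a z * (1 / 2 : ℝ) ^ (∑ i ∈ s, a z.1 i) := by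
  obtain ⟨n, hn⟩ : ∃ n, ∀ i ∈ s, i < n := ⟨s.sup id + 1, fun i hi =>
    Nat.lt_succ_of_le (Finset.le_sup (f := id) hi)⟩
  set M := max n N with hM
  have h1 : Supp (addDigits z s) M := by
    intro i hi
    have h2 : i ∉ s := fun h => absurd (hn i h) (not_lt.2 ((le_max_left n N).trans hi))
    simp [addDigits, hz i ((le_max_right n N).trans hi), h2]
  rw [th_eq_of_supp a h1, th_eq_of_supp a (hz.mono (le_max_right n N)), ← pow_add,
    wt_addDigits a hz hs (fun i hi => (hn i hi).trans_le (le_max_left n N))]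

theorem FanData.tendsto_pt {Z : Type*} [TopologicalSpace Z] (D : FanData Z) {ι : Type*}
    {l : Filter ι} {w : ι → Z} {y : ι → ℝ} {z : Z} {y0 : ℝ} (hw : Tendsto w l (𝓝 z))
    (hy : Tendsto y l (𝓝 y0)) (h0 : ∀ i, 0 ≤ y i) (h1 : ∀ i, y i ≤ D.h (w i)) (h0' : 0 ≤ y0)
    (h1' : y0 ≤ D.h z) : Tendsto (fun i => D.pt (w i) (y i)) l (𝓝 (D.pt z y0)) := by
  rw [tendsto_subtype_rng]
  have h2 : ∀ i, (D.pt (w i) (y i) : ℝ × ℝ) = D.q (w i, y i) := fun i => D.pt_val (h0 i) (h1 i)
  have h3 : (D.pt z y0 : ℝ × ℝ) = D.q (z, y0) := D.pt_val h0' h1'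
  simp_rw [h2]
  rw [h3]
  exact (D.q_cont.tendsto (z, y0)).comp (hw.prodMk_nhds hy)

/-- Conditions on the weights. -/
structure Good (a : Bool → ℕ → ℕ) (c : Bool → ℕ) : Prop where
  one_le : ∀ b, 1 ≤ c b
  le : ∀ b i, c b ≤ a b i
  real : ∀ b N m, c b ≤ m → ∃ s : Finset ℕ, (∀ i ∈ s, N ≤ i) ∧ ∑ i ∈ s, a b i = m

theorem Good.pos {a : Bool → ℕ → ℕ} {c : Bool → ℕ} (h : Good a c) (b : Bool) (i : ℕ) :
    1 ≤ a b i := (h.one_le b).trans (h.le b i)

/-- Sequence of directions converging to `z` with prescribed height. -/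
theorem exists_seq {a : Bool → ℕ → ℕ} {c : Bool → ℕ} (hg : Good a c) {z : TZ} {N : ℕ}
    (hz : Supp z N) {m : ℕ} (hm : c z.1 ≤ m) :
    ∃ w : ℕ → TZ, Tendsto w atTop (𝓝 z) ∧ (∀ k, (w k).1 = z.1) ∧ (∀ k, w k ≠ z) ∧
      ∀ k, th a (w k) = th a z * (1 / 2 : ℝ) ^ m := by
  have h1 : ∀ k : ℕ, ∃ s : Finset ℕ, (∀ i ∈ s, N + k ≤ i) ∧ ∑ i ∈ s, a z.1 i = m :=
    fun k => hg.real z.1 (N + k) m hm
  choose s hs hsm using h1
  have hth : ∀ k, th a (addDigits z (s k)) = th a z * (1 / 2 : ℝ) ^ m := by
    intro k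
    rw [th_addDigits a hz (fun i hi => (Nat.le_add_right N k).trans (hs k i hi)), hsm]
  refine ⟨fun k => addDigits z (s k), ?_, fun k => rfl, ?_, hth⟩
  · rw [Prod.tendsto_iff]
    refine ⟨tendsto_const_nhds, ?_⟩
    rw [tendsto_pi_nhds]
    intro i
    refine tendsto_const_nhds.congr' ?_
    filter_upwards [eventually_ge_atTop (i + 1)] with k hk
    have : i ∉ s k := fun h => by
      have := hs k i h
      omega
    simp [addDigits, this]
  · intro k hk
    have h2 := hth k
    simp only at hk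
    rw [hk] at h2
    have hpos := th_pos_of_supp a hz
    have hm1 : 1 ≤ m := (hg.one_le _).trans hm
    have h3 : (1 / 2 : ℝ) ^ m < 1 := pow_lt_one₀ (by norm_num) (by norm_num) (by omega)
    nlinarith

theorem tree_limit {a : Bool → ℕ → ℕ} {c : Bool → ℕ} (hg : Good a c) {z : TZ}
    (hz : 0 < (tree a).h z) :
    (tree a).seg ((tree a).pt z ((tree a).h z)) ∩
      closure ({x | IsEndPoint x} \ (tree a).seg ((tree a).pt z ((tree a).h z))) =
    {p | p = (tree a).o ∨
      ∃ m, c z.1 ≤ m ∧ p = (tree a).pt z ((tree a).h z * (1 / 2 : ℝ) ^ m)} := by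
  set D := tree a with hD
  obtain ⟨N, hN⟩ := exists_supp hg.pos hz
  have hpow : ∀ m : ℕ, 0 ≤ D.h z * (1 / 2 : ℝ) ^ m ∧ D.h z * (1 / 2 : ℝ) ^ m ≤ D.h z := by
    intro m
    refine ⟨by positivity, ?_⟩
    have : (1 / 2 : ℝ) ^ m ≤ 1 := pow_le_one₀ (by norm_num) (by norm_num)
    nlinarith
  have hout : ∀ w, 0 < D.h w → w ≠ z →
      D.pt w (D.h w) ∈ {x | IsEndPoint x} \ D.seg (D.pt z (D.h z)) := by
    intro w hw hwz
    refine ⟨(isEndPoint_tree a _).2 ⟨w, hw, rfl⟩, ?_⟩
    intro h
    obtain ⟨s, hs0, hs1, he⟩ := (D.mem_seg_pt hz.le le_rfl).1 h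
    obtain ⟨h2, h3 | h3⟩ := D.pt_eq_pt hw.le le_rfl hs0 hs1 he
    · exact hw.ne' h3
    · exact hwz h3
  apply Subset.antisymm
  · rintro p ⟨hp, hcl⟩
    obtain ⟨y, hy0, hy1, rfl⟩ := (D.mem_seg_pt hz.le le_rfl).1 hp
    by_cases hy : y = 0
    · left; rw [hy, D.pt_zero_eq]
    right
    set T : Set ℝ := insert 0 (range fun k : ℕ => D.h z * (1 / 2 : ℝ) ^ (c z.1 + k)) with hT
    have hTc : IsClosed T := by
      have h1 : Tendsto (fun k : ℕ => D.h z * (1 / 2 : ℝ) ^ (c z.1 + k)) atTop (𝓝 0) := by
        have h2 : Tendsto (fun k : ℕ => (1 / 2 : ℝ) ^ k) atTop (𝓝 0) :=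
          tendsto_pow_atTop_nhds_zero_of_lt_one (by norm_num) (by norm_num)
        have h3 : (fun k : ℕ => D.h z * (1 / 2 : ℝ) ^ (c z.1 + k)) =
            fun k : ℕ => (D.h z * (1 / 2 : ℝ) ^ c z.1) * (1 / 2 : ℝ) ^ k := by
          funext k; rw [pow_add, mul_assoc]
        rw [h3]
        simpa using h2.const_mul (D.h z * (1 / 2 : ℝ) ^ c z.1)
      exact h1.isCompact_insert_range.isClosed
    have hK1 := D.isClosed_image (K := {p | p.1 ∈ {w | Agree N z w}ᶜ})
      ((isClopen_agree N z).compl.isClosed.preimage continuous_fst)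
    have hK2 := D.isClosed_image (K := {p | p.2 ∈ T}) (hTc.preimage continuous_snd)
    have hsub : ({x | IsEndPoint x} \ D.seg (D.pt z (D.h z)) : Set D.F) ⊆
        {p : D.F | ∃ z' y, (z', y) ∈ {p : TZ × ℝ | p.1 ∈ {w | Agree N z w}ᶜ} ∧ 0 ≤ y ∧
          y ≤ D.h z' ∧ p = D.pt z' y} ∪
        {p : D.F | ∃ z' y, (z', y) ∈ {p : TZ × ℝ | p.2 ∈ T} ∧ 0 ≤ y ∧ y ≤ D.h z' ∧
          p = D.pt z' y} := by
      rintro r ⟨hr, hr2⟩
      obtain ⟨w, hw, rfl⟩ := (isEndPoint_tree a r).1 hr
      by_cases hA : Agree N z w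
      · right
        refine ⟨w, D.h w, ?_, hw.le, le_rfl, rfl⟩
        obtain ⟨M, hM⟩ := exists_supp hg.pos hw
        set L := max M N with hL
        have hLs := hM.mono (le_max_left M N)
        -- some digit of `w` beyond `N` is true
        have hex : ∃ i, N ≤ i ∧ w.2 i = true := by
          by_contra hcon
          push Not at hcon
          apply hr2
          have : w = z := by
            refine Prod.ext hA.1 (funext fun i => ?_)
            by_cases hi : i < N
            · exact hA.2 i hi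
            · rw [hN i (not_lt.1 hi)]
              simpa using hcon i (not_lt.1 hi)
          rw [this]
          exact D.mem_seg _
        obtain ⟨i, hi, hwi⟩ := hex
        have hiL : i < L := by
          by_contra h
          have := hLs i (not_lt.1 h)
          rw [hwi] at this
          exact Bool.noConfusion this
        have h4 : wt a z N + c z.1 ≤ wt a w L := by
          have h5 : wt a w (i + 1) ≤ wt a w L := wt_mono a w hiL
          have h6 : wt a w N ≤ wt a w i := wt_mono a w hi
          rw [wt_succ, hwi] at h5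
          rw [wt_agree a hA] at h6
          have h7 := hg.le w.1 i
          rw [hA.1] at h7
          simp only [if_true, hA.1] at h5
          omega
        show D.h w ∈ T
        right
        obtain ⟨e, he⟩ := Nat.exists_eq_add_of_le h4
        refine ⟨e, ?_⟩
        simp only [hD, tree_h]
        rw [th_eq_of_supp a hN, th_eq_of_supp a hLs, ← pow_add, he, add_assoc]
      · left
        exact ⟨w, D.h w, hA, hw.le, le_rfl, rfl⟩
    have h8 := closure_minimal hsub (hK1.union hK2) hcl
    rcases h8 with ⟨w, t, hw, ht0, ht1, he⟩ | ⟨w, t, hw, ht0, ht1, he⟩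
    · obtain ⟨-, h9 | h9⟩ := D.pt_eq_pt hy0 hy1 ht0 ht1 he
      · exact absurd h9 hy
      · subst h9
        exact absurd (Agree.refl N z) hw
    · obtain ⟨h9, -⟩ := D.pt_eq_pt hy0 hy1 ht0 ht1 he
      subst h9
      rcases hw with hw | ⟨k, hk⟩
      · exact absurd hw hy
      · simp only at hk
        exact ⟨c z.1 + k, Nat.le_add_right _ _, by rw [hk]⟩
  · have hmem : ∀ m, c z.1 ≤ m → D.pt z (D.h z * (1 / 2 : ℝ) ^ m) ∈
        closure ({x | IsEndPoint x} \ D.seg (D.pt z (D.h z)) : Set D.F) := by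
      intro m hm
      obtain ⟨w, hw1, -, hw3, hw4⟩ := exists_seq hg hN hm
      have hw4' : ∀ k, D.h (w k) = D.h z * (1 / 2 : ℝ) ^ m := hw4
      have hpos : 0 < D.h z * (1 / 2 : ℝ) ^ m := by positivity
      have ht := D.tendsto_pt (l := atTop) (w := w) (y := fun _ => D.h z * (1 / 2 : ℝ) ^ m) hw1
        tendsto_const_nhds (fun _ => (hpow m).1) (fun k => (hw4' k).ge) (hpow m).1 (hpow m).2
      refine mem_closure_of_tendsto ht (Eventually.of_forall fun k => ?_)
      have := hout (w k) (by rw [hw4']; exact hpos) (hw3 k)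
      rw [hw4'] at this
      exact this
    have hmemo : D.o ∈ closure ({x | IsEndPoint x} \ D.seg (D.pt z (D.h z)) : Set D.F) := by
      have h1 : Tendsto (fun m : ℕ => D.pt z (D.h z * (1 / 2 : ℝ) ^ m)) atTop (𝓝 (D.pt z 0)) := by
        refine D.tendsto_pt tendsto_const_nhds ?_ (fun m => (hpow m).1) (fun m => (hpow m).2)
          le_rfl hz.le
        have h2 : Tendsto (fun k : ℕ => (1 / 2 : ℝ) ^ k) atTop (𝓝 0) :=
          tendsto_pow_atTop_nhds_zero_of_lt_one (by norm_num) (by norm_num)
        simpa using h2.const_mul (D.h z)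
      rw [D.pt_zero_eq] at h1
      refine isClosed_closure.mem_of_tendsto h1 ?_
      filter_upwards [eventually_ge_atTop (c z.1)] with m hm
      exact hmem m hm
    rintro p (rfl | ⟨m, hm, rfl⟩)
    · exact ⟨D.o_mem_seg _, hmemo⟩
    · exact ⟨(D.mem_seg_pt hz.le le_rfl).2 ⟨_, (hpow m).1, (hpow m).2, rfl⟩, hmem m hm⟩

end Q173Fan
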