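import Pool.Agent.Q173.FanTreeEPG

/-!
# Tree fans: the EPG property and non-equivalence of end points of different type
-/

set_option linter.unusedSectionVars false

namespace Q173Fan

open Set Topology Filter

/-- The closed set `{0} ∪ {2 ^ (-m) : m ≥ 1}`. -/
def P0 : Set unitInterval := {s | (s : ℝ) = 0 ∨ ∃ m : ℕ, 1 ≤ m ∧ (s : ℝ) = (1 / 2 : ℝ) ^ m}

/-- A piecewise linear homeomorphism of `[0,1]`. -/
noncomputable def theta (l s : ℝ) : ℝ := max (l * s) (1 - (2 - l) * (1 - s))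

theorem theta_cont (l : ℝ) : Continuous (theta l) := by unfold theta; fun_prop

theorem theta_strictMono {l : ℝ} (h0 : 0 < l) (h1 : l ≤ 1) : StrictMono (theta l) := by
  intro s t hst
  unfold theta
  refine max_lt_max ?_ ?_
  · exact mul_lt_mul_of_pos_left hst h0
  · nlinarith

theorem theta_low {l s : ℝ} (h1 : l ≤ 1) (hs : s ≤ 1 / 2) : theta l s = l * s := by
  unfold theta
  refine max_eq_left ?_
  nlinarith

theorem theta_zero {l : ℝ} (h1 : l ≤ 1) : theta l 0 = 0 := by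
  rw [theta_low h1 (by norm_num), mul_zero]

theorem theta_one {l : ℝ} (h1 : l ≤ 1) : theta l 1 = 1 := by
  unfold theta
  rw [sub_self, mul_zero, sub_zero, mul_one]
  exact max_eq_right h1

theorem isEPG_tree {a : Bool → ℕ → ℕ} {c : Bool → ℕ} (hg : Good a c) :
    IsEPG (tree a).F (tree a).o P0 := by
  set D := tree a with hD
  intro e B he hB
  obtain ⟨z, hz, rfl⟩ := (isEndPoint_tree a e).1 he
  have hBs : B = D.seg (D.pt z (D.h z)) := D.arc_eq_seg (Or.inl hB)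
  set l : ℝ := (1 / 2 : ℝ) ^ (c z.1 - 1) with hl
  have hl0 : 0 < l := by positivity
  have hl1 : l ≤ 1 := pow_le_one₀ (by norm_num) (by norm_num)
  have hmono := theta_strictMono hl0 hl1
  have hth0 : ∀ s : unitInterval, 0 ≤ theta l s := fun s => by
    rw [← theta_zero hl1]; exact hmono.monotone s.2.1
  have hth1 : ∀ s : unitInterval, theta l s ≤ 1 := fun s => by
    rw [← theta_one hl1]; exact hmono.monotone s.2.2
  have hv0 : ∀ s : unitInterval, 0 ≤ D.h z * theta l s := fun s => mul_nonneg hz.le (hth0 s)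
  have hv1 : ∀ s : unitInterval, D.h z * theta l s ≤ D.h z := fun s =>
    mul_le_of_le_one_right hz.le (hth1 s)
  set φ : unitInterval → D.F := fun s => D.pt z (D.h z * theta l s) with hφ
  have hc : Continuous φ := by
    refine (D.pt_cont z).comp ?_
    exact continuous_const.mul ((theta_cont l).comp continuous_subtype_val)
  have hi : Function.Injective φ := by
    intro s t hst
    have h1 := (D.pt_eq_pt (hv0 s) (hv1 s) (hv0 t) (hv1 t) hst).1
    exact Subtype.ext (hmono.injective (mul_left_cancel₀ hz.ne' h1))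
  have hφ0 : φ 0 = D.o := by
    simp only [hφ]
    rw [Set.Icc.coe_zero, theta_zero hl1, mul_zero, D.pt_zero_eq]
  have hφ1 : φ 1 = D.pt z (D.h z) := by
    simp only [hφ]
    rw [Set.Icc.coe_one, theta_one hl1, mul_one]
  have harc := isArcBetween_of_injective hc hi
  rw [hφ0, hφ1] at harc
  have hr : range φ = D.seg (D.pt z (D.h z)) := D.arc_eq_seg (Or.inl harc)
  refine ⟨φ, (hc.isClosedEmbedding hi).isEmbedding, by rw [hr, hBs], hφ0, hφ1, ?_⟩
  rw [hBs, tree_limit hg hz]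
  have hhalf : ∀ {m : ℕ}, 1 ≤ m → (1 / 2 : ℝ) ^ m ≤ 1 / 2 := by
    intro m hm
    calc (1 / 2 : ℝ) ^ m ≤ (1 / 2 : ℝ) ^ 1 :=
          pow_le_pow_of_le_one (by norm_num) (by norm_num) hm
      _ = 1 / 2 := pow_one _
  have hc1 := hg.one_le z.1
  ext p
  constructor
  · rintro ⟨s, hs | ⟨m, hm, hs⟩, rfl⟩
    · left
      simp only [hφ]
      rw [hs, theta_zero hl1, mul_zero, D.pt_zero_eq]
    · right
      refine ⟨c z.1 - 1 + m, by omega, ?_⟩
      simp only [hφ]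
      rw [hs, theta_low hl1 (hhalf hm), hl, ← pow_add]
  · rintro (rfl | ⟨m, hm, rfl⟩)
    · exact ⟨0, Or.inl rfl, hφ0⟩
    · have hm' : 1 ≤ m - (c z.1 - 1) := by omega
      refine ⟨⟨(1 / 2 : ℝ) ^ (m - (c z.1 - 1)), by positivity,
        pow_le_one₀ (by norm_num) (by norm_num)⟩, Or.inr ⟨_, hm', rfl⟩, ?_⟩
      simp only [hφ]
      rw [theta_low hl1 (hhalf hm'), hl, ← pow_add]
      congr 3
      omega

/-- Slope. -/
noncomputable def FanData.sl {Z : Type*} [TopologicalSpace Z] (D : FanData Z) (p : D.F) : ℝ :=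
  p.1.1 / p.1.2

theorem FanData.sl_pt {Z : Type*} [TopologicalSpace Z] (D : FanData Z) {z : Z} {y : ℝ}
    (h0 : 0 < y) (h1 : y ≤ D.h z) : D.sl (D.pt z y) = D.x z := by
  unfold FanData.sl
  rw [D.pt_val h0.le h1]
  simp only
  field_simp

theorem FanData.tendsto_sl {Z : Type*} [TopologicalSpace Z] (D : FanData Z) {ι : Type*}
    {l : Filter ι} {p : ι → D.F} {r : D.F} (h : Tendsto p l (𝓝 r)) (hr : D.ht r ≠ 0) :
    Tendsto (fun i => D.sl (p i)) l (𝓝 (D.sl r)) := by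
  unfold FanData.sl
  have h1 : Tendsto (fun i => (p i : ℝ × ℝ)) l (𝓝 (r : ℝ × ℝ)) := tendsto_subtype_rng.1 h
  have h2 := (continuous_fst.tendsto (r : ℝ × ℝ)).comp h1
  have h3 := (continuous_snd.tendsto (r : ℝ × ℝ)).comp h1
  exact h2.div h3 hr

section contradiction

variable {a a' : Bool → ℕ → ℕ} {c c' : Bool → ℕ}

theorem image_limit (hg : Good a c) (hg' : Good a' c') (f : (tree a).F ≃ₜ (tree a').F)
    {z z' : TZ} (hz : 0 < (tree a).h z) (hz' : 0 < (tree a').h z')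
    (hf : f ((tree a).pt z ((tree a).h z)) = (tree a').pt z' ((tree a').h z')) :
    f '' {p | p = (tree a).o ∨
      ∃ m, c z.1 ≤ m ∧ p = (tree a).pt z ((tree a).h z * (1 / 2 : ℝ) ^ m)} =
    {p | p = (tree a').o ∨
      ∃ m, c' z'.1 ≤ m ∧ p = (tree a').pt z' ((tree a').h z' * (1 / 2 : ℝ) ^ m)} := by
  have ho : f (tree a).o = (tree a').o :=
    (isSmoothFan_tree a).1.image_top (isSmoothFan_tree a').1 f
  rw [← tree_limit hg hz, ← tree_limit hg' hz', image_inter f.injective,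
    FanData.image_seg f ho, f.image_closure, image_diff f.injective, image_setOf_isEndPoint,
    FanData.image_seg f ho, hf]

theorem image_limit' {D D' : FanData TZ} (hD : D = tree a) (hD' : D' = tree a')
    (hg : Good a c) (hg' : Good a' c') (f : D.F ≃ₜ D'.F)
    {z z' : TZ} (hz : 0 < D.h z) (hz' : 0 < D'.h z')
    (hf : f (D.pt z (D.h z)) = D'.pt z' (D'.h z')) :
    f '' {p | p = D.o ∨ ∃ m, c z.1 ≤ m ∧ p = D.pt z (D.h z * (1 / 2 : ℝ) ^ m)} =
    {p | p = D'.o ∨ ∃ m, c' z'.1 ≤ m ∧ p = D'.pt z' (D'.h z' * (1 / 2 : ℝ) ^ m)} := by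
  subst hD
  subst hD'
  exact image_limit hg hg' f hz hz' hf

theorem image_o {D D' : FanData TZ} (hD : D = tree a) (hD' : D' = tree a')
    (f : D.F ≃ₜ D'.F) : f D.o = D'.o := by
  subst hD
  subst hD'
  exact (isSmoothFan_tree a).1.image_top (isSmoothFan_tree a').1 f

theorem claimA {D D' : FanData TZ} (hD : D = tree a) (hD' : D' = tree a')
    (hg : Good a c) (hg' : Good a' c') (f : D.F ≃ₜ D'.F)
    {z z' : TZ} (hz : 0 < D.h z) (hz' : 0 < D'.h z')
    (hf : f (D.pt z (D.h z)) = D'.pt z' (D'.h z'))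
    (hc : c z.1 = 1) (hc' : c' z'.1 = 2) :
    f (D.pt z (D.h z * (1 / 2 : ℝ) ^ 1)) =
      D'.pt z' (D'.h z' * (1 / 2 : ℝ) ^ 2) ∧
    D'.ht (f (D.pt z (D.h z * (1 / 2 : ℝ) ^ 2))) =
      D'.h z' * (1 / 2 : ℝ) ^ 3 := by
  have ho : f D.o = D'.o := image_o hD hD' f
  have hL := image_limit' hD hD' hg hg' f hz hz' hf
  have hpow : ∀ m : ℕ, 0 ≤ D.h z * (1 / 2 : ℝ) ^ m ∧ D.h z * (1 / 2 : ℝ) ^ m ≤ D.h z := by
    intro m
    refine ⟨by positivity, ?_⟩
    have : (1 / 2 : ℝ) ^ m ≤ 1 := pow_le_one₀ (by norm_num) (by norm_num)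
    nlinarith
  have hpow' : ∀ m : ℕ, 0 ≤ D'.h z' * (1 / 2 : ℝ) ^ m ∧
      D'.h z' * (1 / 2 : ℝ) ^ m ≤ D'.h z' := by
    intro m
    refine ⟨by positivity, ?_⟩
    have : (1 / 2 : ℝ) ^ m ≤ 1 := pow_le_one₀ (by norm_num) (by norm_num)
    nlinarith
  have hpp : ∀ m : ℕ, 0 < D'.h z' * (1 / 2 : ℝ) ^ m := fun m => by positivity
  have hle : ∀ {m k : ℕ}, D'.h z' * (1 / 2 : ℝ) ^ m ≤ D'.h z' * (1 / 2 : ℝ) ^ k → k ≤ m := by
    intro m k h
    have h1 : (1 / 2 : ℝ) ^ m ≤ (1 / 2 : ℝ) ^ k := le_of_mul_le_mul_left h hz'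
    by_contra hcon
    have h2 : (1 / 2 : ℝ) ^ k < (1 / 2 : ℝ) ^ m :=
      pow_lt_pow_right_of_lt_one₀ (by norm_num) (by norm_num) (not_le.1 hcon)
    linarith
  have hmono : ∀ {m k : ℕ}, k ≤ m → D'.ht (f (D.pt z (D.h z * (1 / 2 : ℝ) ^ m))) ≤
      D'.ht (f (D.pt z (D.h z * (1 / 2 : ℝ) ^ k))) := by
    intro m k hk
    refine FanData.ht_le_of_homeo f ho (hpow m).1 ?_ (hpow k).2
    exact mul_le_mul_of_nonneg_left
      (pow_le_pow_of_le_one (by norm_num) (by norm_num) hk) hz.le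
  -- images of points of `L`
  have him : ∀ m, 1 ≤ m → f (D.pt z (D.h z * (1 / 2 : ℝ) ^ m)) = D'.o ∨
      ∃ k, 2 ≤ k ∧ f (D.pt z (D.h z * (1 / 2 : ℝ) ^ m)) =
        D'.pt z' (D'.h z' * (1 / 2 : ℝ) ^ k) := by
    intro m hm
    have h1 : f (D.pt z (D.h z * (1 / 2 : ℝ) ^ m)) ∈ f '' {p | p = D.o ∨
      ∃ m, c z.1 ≤ m ∧ p = D.pt z (D.h z * (1 / 2 : ℝ) ^ m)} :=
      mem_image_of_mem _ (Or.inr ⟨m, by rw [hc]; exact hm, rfl⟩)
    rw [hL, hc'] at h1
    exact h1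
  have hpre : ∀ k, 2 ≤ k → ∃ m, 1 ≤ m ∧ f (D.pt z (D.h z * (1 / 2 : ℝ) ^ m)) =
        D'.pt z' (D'.h z' * (1 / 2 : ℝ) ^ k) := by
    intro k hk
    have h1 : D'.pt z' (D'.h z' * (1 / 2 : ℝ) ^ k) ∈ {p | p = D'.o ∨
      ∃ m, c' z'.1 ≤ m ∧ p = D'.pt z' (D'.h z' * (1 / 2 : ℝ) ^ m)} :=
      Or.inr ⟨k, by rw [hc']; exact hk, rfl⟩
    rw [← hL] at h1
    obtain ⟨q, hq | ⟨m, hm, hq⟩, hfq⟩ := h1
    · exfalso
      rw [hq, ho] at hfq
      have := (D'.pt_eq_o_iff (hpow' k).1 (hpow' k).2).1 hfq.symm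
      exact (hpp k).ne' this
    · rw [hc] at hm
      exact ⟨m, hm, by rw [← hfq, hq]⟩
  have key : ∀ (n : ℕ), 1 ≤ n → (∀ m, 1 ≤ m → D'.ht (f (D.pt z (D.h z * (1 / 2 : ℝ) ^ m))) =
      D'.h z' * (1 / 2 : ℝ) ^ (n + 1) → n ≤ m) → ∃ k, 2 ≤ k ∧ k ≤ n + 1 ∧
      f (D.pt z (D.h z * (1 / 2 : ℝ) ^ n)) = D'.pt z' (D'.h z' * (1 / 2 : ℝ) ^ k) := by
    intro n hn hmin
    obtain ⟨m, hm, hmf⟩ := hpre (n + 1) (by omega)
    have hnm : n ≤ m := hmin m hm (by rw [hmf, D'.ht_pt (hpow' _).1 (hpow' _).2])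
    have h2 := hmono hnm
    rw [hmf, D'.ht_pt (hpow' _).1 (hpow' _).2] at h2
    rcases him n hn with h | ⟨k, hk, hkf⟩
    · rw [h, D'.ht_o] at h2
      exact absurd h2 (not_le.2 (hpp _))
    · rw [hkf, D'.ht_pt (hpow' _).1 (hpow' _).2] at h2
      exact ⟨k, hk, hle h2, hkf⟩
  obtain ⟨k, hk1, hk2, hk3⟩ := key 1 le_rfl (fun m hm _ => hm)
  have hk4 : k = 2 := by omega
  subst hk4
  refine ⟨hk3, ?_⟩
  obtain ⟨j, hj1, hj2, hj3⟩ := key 2 (by norm_num) (by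
    intro m hm hmf
    by_contra hcon
    have : m = 1 := by omega
    subst this
    rw [hk3, D'.ht_pt (hpow' _).1 (hpow' _).2] at hmf
    have h3 : (2 : ℕ) + 1 ≤ 2 := hle hmf.le
    omega)
  have hlt : D'.ht (f (D.pt z (D.h z * (1 / 2 : ℝ) ^ 2))) <
      D'.ht (f (D.pt z (D.h z * (1 / 2 : ℝ) ^ 1))) := by
    refine FanData.ht_lt_of_homeo f ho (hpow 2).1 ?_ (hpow 1).2
    exact mul_lt_mul_of_pos_left (by norm_num) hz
  rw [hk3, hj3, D'.ht_pt (hpow' _).1 (hpow' _).2, D'.ht_pt (hpow' _).1 (hpow' _).2] at hlt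
  have hj4 : j ≠ 2 := by
    rintro rfl
    exact lt_irrefl _ hlt
  have hj5 : j = 3 := by omega
  subst hj5
  rw [hj3, D'.ht_pt (hpow' _).1 (hpow' _).2]

theorem no_homeo {D D' : FanData TZ} (hD : D = tree a) (hD' : D' = tree a')
    (hg : Good a c) (hg' : Good a' c') (f : D.F ≃ₜ D'.F)
    {z z' : TZ} (hz : 0 < D.h z) (hz' : 0 < D'.h z')
    (hf : f (D.pt z (D.h z)) = D'.pt z' (D'.h z'))
    (hc : c z.1 = 1) (hc' : c' z'.1 = 2) : False := by
  obtain ⟨hA, hB⟩ := claimA hD hD' hg hg' f hz hz' hf hc hc'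
  have hzt : 0 < th a z := by rw [hD] at hz; exact hz
  obtain ⟨N, hN⟩ := exists_supp hg.pos hzt
  obtain ⟨w, hw1, hw2, hw3, hw4⟩ := exists_seq hg hN (m := 1) hc.le
  have hw4' : ∀ k, D.h (w k) = D.h z * (1 / 2 : ℝ) ^ 1 := by rw [hD]; exact hw4
  have hDx : D'.x = tx := by rw [hD']; rfl
  have hE1 : ∀ p : D.F, IsEndPoint p ↔ ∃ z, 0 < D.h z ∧ p = D.pt z (D.h z) := by
    rw [hD]; exact isEndPoint_tree a
  have hE2 : ∀ p : D'.F, IsEndPoint p ↔ ∃ z, 0 < D'.h z ∧ p = D'.pt z (D'.h z) := by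
    rw [hD']; exact isEndPoint_tree a'
  have hwpos : ∀ k, 0 < D.h (w k) := fun k => by rw [hw4']; positivity
  have hpow : ∀ m : ℕ, 0 ≤ D.h z * (1 / 2 : ℝ) ^ m ∧ D.h z * (1 / 2 : ℝ) ^ m ≤ D.h z := by
    intro m
    refine ⟨by positivity, ?_⟩
    have : (1 / 2 : ℝ) ^ m ≤ 1 := pow_le_one₀ (by norm_num) (by norm_num)
    nlinarith
  have hpow' : ∀ m : ℕ, 0 ≤ D'.h z' * (1 / 2 : ℝ) ^ m ∧
      D'.h z' * (1 / 2 : ℝ) ^ m ≤ D'.h z' := by
    intro m
    refine ⟨by positivity, ?_⟩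
    have : (1 / 2 : ℝ) ^ m ≤ 1 := pow_le_one₀ (by norm_num) (by norm_num)
    nlinarith
  -- the tips of the blades `w k`
  have ht1 : Tendsto (fun k => D.pt (w k) (D.h z * (1 / 2 : ℝ) ^ 1)) atTop
      (𝓝 (D.pt z (D.h z * (1 / 2 : ℝ) ^ 1))) :=
    D.tendsto_pt hw1 tendsto_const_nhds (fun _ => (hpow 1).1) (fun k => (hw4' k).ge)
      (hpow 1).1 (hpow 1).2
  have ht2 : Tendsto (fun k => D.pt (w k) (D.h z * (1 / 2 : ℝ) ^ 2)) atTop
      (𝓝 (D.pt z (D.h z * (1 / 2 : ℝ) ^ 2))) := by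
    refine D.tendsto_pt hw1 tendsto_const_nhds (fun _ => (hpow 2).1) (fun k => ?_)
      (hpow 2).1 (hpow 2).2
    rw [hw4']
    exact mul_le_mul_of_nonneg_left (by norm_num) hz.le
  have hE : ∀ k, ∃ w', 0 < D'.h w' ∧ f (D.pt (w k) (D.h (w k))) = D'.pt w' (D'.h w') :=
    fun k => (hE2 _).1 (IsEndPoint.image ((hE1 _).2 ⟨w k, hwpos k, rfl⟩) f)
  choose w' hw'0 hw'1 using hE
  have hlim1 : Tendsto (fun k => D'.pt (w' k) (D'.h (w' k))) atTop
      (𝓝 (D'.pt z' (D'.h z' * (1 / 2 : ℝ) ^ 2))) := by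
    have h1 := (f.continuous.tendsto _).comp ht1
    rw [hA] at h1
    refine h1.congr fun k => ?_
    simp only [Function.comp]
    rw [← hw'1 k, hw4' k]
  have hht : Tendsto (fun k => D'.h (w' k)) atTop (𝓝 (D'.h z' * (1 / 2 : ℝ) ^ 2)) := by
    have h1 := (D'.ht_cont.tendsto _).comp hlim1
    rw [D'.ht_pt (hpow' 2).1 (hpow' 2).2] at h1
    refine h1.congr fun k => ?_
    simp only [Function.comp]
    rw [D'.ht_pt (hw'0 k).le le_rfl]
  have hsl : Tendsto (fun k => tx (w' k)) atTop (𝓝 (tx z')) := by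
    have hp2 : 0 < D'.h z' * (1 / 2 : ℝ) ^ 2 := by positivity
    have h1 := D'.tendsto_sl hlim1 (by rw [D'.ht_pt (hpow' 2).1 (hpow' 2).2]; exact hp2.ne')
    rw [D'.sl_pt hp2 (hpow' 2).2, hDx] at h1
    refine h1.congr fun k => ?_
    rw [D'.sl_pt (hw'0 k) le_rfl, hDx]
  have hcomp : ∀ᶠ k in atTop, (w' k).1 = z'.1 := by
    rcases z' with ⟨b, d⟩
    cases b
    · have h1 : tx (false, d) < 3 / 2 := by linarith [tx_lt d]
      filter_upwards [hsl.eventually (gt_mem_nhds h1)] with k hk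
      rcases hwk : w' k with ⟨b, d'⟩
      rw [hwk] at hk
      cases b
      · rfl
      · linarith [tx_ge d']
    · have h1 : 3 / 2 < tx (true, d) := by linarith [tx_ge d]
      filter_upwards [hsl.eventually (lt_mem_nhds h1)] with k hk
      rcases hwk : w' k with ⟨b, d'⟩
      rw [hwk] at hk
      cases b
      · linarith [tx_lt d']
      · rfl
  have hlim2 : Tendsto (fun k => D'.ht (f (D.pt (w k) (D.h z * (1 / 2 : ℝ) ^ 2)))) atTop
      (𝓝 (D'.h z' * (1 / 2 : ℝ) ^ 3)) := by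
    have h1 : Tendsto (fun k => D'.ht (f (D.pt (w k) (D.h z * (1 / 2 : ℝ) ^ 2)))) atTop
        (𝓝 (D'.ht (f (D.pt z (D.h z * (1 / 2 : ℝ) ^ 2))))) :=
      ((D'.ht_cont.comp f.continuous).tendsto _).comp ht2
    rwa [hB] at h1
  have hlim3 : Tendsto (fun k => D'.ht (f (D.pt (w k) (D.h z * (1 / 2 : ℝ) ^ 2)))) atTop
      (𝓝 (D'.h z' * (1 / 2 : ℝ) ^ 2 * (1 / 2 : ℝ) ^ 2)) := by
    refine (hht.mul_const _).congr' ?_
    filter_upwards [hcomp] with k hk
    have h1 := (claimA hD hD' hg hg' f (hwpos k) (hw'0 k) (hw'1 k) (by rw [hw2 k]; exact hc)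
      (by rw [hk]; exact hc')).1
    have h2 : D.h (w k) * (1 / 2 : ℝ) ^ 1 = D.h z * (1 / 2 : ℝ) ^ 2 := by
      rw [hw4' k]; ring
    rw [h2] at h1
    rw [h1, D'.ht_pt]
    · have := hw'0 k; positivity
    · have := hw'0 k
      nlinarith
  have := tendsto_nhds_unique hlim2 hlim3
  nlinarith

end contradiction

/-! ### The weights -/

/-- All weights one. -/
def a1 : Bool → ℕ → ℕ := fun _ _ => 1

/-- Weights two and three. -/
def a2 : Bool → ℕ → ℕ := fun _ i => if i % 2 = 0 then 2 else 3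

/-- Weight one in one component and two and three in the other. -/
def a3 : Bool → ℕ → ℕ := fun b i => if b then (if i % 2 = 0 then 2 else 3) else 1

theorem real_one (N m : ℕ) : ∃ s : Finset ℕ, (∀ i ∈ s, N ≤ i) ∧ ∑ i ∈ s, (1 : ℕ) = m :=
  ⟨Finset.Ico N (N + m), fun i hi => (Finset.mem_Ico.1 hi).1, by simp⟩

theorem real_two (N m : ℕ) (hm : 2 ≤ m) : ∃ s : Finset ℕ, (∀ i ∈ s, N ≤ i) ∧
    ∑ i ∈ s, (if i % 2 = 0 then 2 else 3) = m := by
  have hE : ∀ k : ℕ, ∑ i ∈ (Finset.range k).image (fun j => 2 * (N + 1 + j)),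
      (if i % 2 = 0 then 2 else 3) = 2 * k := by
    intro k
    rw [Finset.sum_image (by intro x _ y _ h; simp only at h; omega)]
    simp [mul_comm]
  rcases Nat.even_or_odd m with ⟨k, hk⟩ | ⟨k, hk⟩
  · refine ⟨(Finset.range k).image (fun j => 2 * (N + 1 + j)), ?_, ?_⟩
    · intro i hi
      obtain ⟨j, -, rfl⟩ := Finset.mem_image.1 hi
      omega
    · rw [hE]; omega
  · refine ⟨insert (2 * N + 1) ((Finset.range (k - 1)).image (fun j => 2 * (N + 1 + j))), ?_, ?_⟩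
    · intro i hi
      rcases Finset.mem_insert.1 hi with rfl | hi
      · omega
      · obtain ⟨j, -, rfl⟩ := Finset.mem_image.1 hi
        omega
    · rw [Finset.sum_insert, hE]
      · have : (2 * N + 1) % 2 = 1 := by omega
        rw [this]
        simp only [one_ne_zero, if_false]
        omega
      · intro h
        obtain ⟨j, -, hj⟩ := Finset.mem_image.1 h
        omega

theorem good1 : Good a1 (fun _ => 1) :=
  ⟨fun _ => le_rfl, fun _ _ => le_rfl, fun _ N m _ => real_one N m⟩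

theorem good2 : Good a2 (fun _ => 2) := by
  refine ⟨fun _ => by norm_num, fun _ i => ?_, fun _ N m hm => real_two N m hm⟩
  unfold a2
  split_ifs <;> norm_num

theorem good3 : Good a3 (fun b => if b then 2 else 1) := by
  refine ⟨fun b => ?_, fun b i => ?_, fun b N m hm => ?_⟩
  · cases b <;> simp
  · cases b
    · simp [a3]
    · simp only [a3, if_true]
      split_ifs <;> norm_num
  · cases b
    · simpa [a3] using real_one N m
    · simpa [a3] using real_two N m (by simpa using hm)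

theorem not_homeo_12 : IsEmpty ((tree a1).F ≃ₜ (tree a2).F) := by
  refine ⟨fun f => ?_⟩
  have hz : 0 < (tree a1).h (zeroDir false) := th_pos_of_supp a1 (supp_zeroDir _)
  obtain ⟨z', hz', hf⟩ := (isEndPoint_tree a2 _).1
    (IsEndPoint.image ((isEndPoint_tree a1 _).2 ⟨zeroDir false, hz, rfl⟩) f)
  exact no_homeo rfl rfl good1 good2 f hz hz' hf rfl rfl

theorem not_homogeneous_3 : ¬ EndPointHomogeneous (tree a3).F := by
  intro h
  have hz : 0 < (tree a3).h (zeroDir false) := th_pos_of_supp a3 (supp_zeroDir _)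
  have hz' : 0 < (tree a3).h (zeroDir true) := th_pos_of_supp a3 (supp_zeroDir _)
  obtain ⟨f, hf⟩ := h _ _ ((isEndPoint_tree a3 _).2 ⟨zeroDir false, hz, rfl⟩)
    ((isEndPoint_tree a3 _).2 ⟨zeroDir true, hz', rfl⟩)
  exact no_homeo rfl rfl good3 good3 f hz hz' hf rfl rfl

end Q173Fan
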